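import Pool.Agent.Lib.ES96.OpT

/-!
# Pyramids over polygons
-/

set_option autoImplicit false

namespace Pool.Agent.ES96

open Module Pool.Agent.FV Pool.Agent.ES85
open scoped Classical

section pyramid

variable {E : Type} [NormedAddCommGroup E] [InnerProductSpace ℝ E] {R : Finset E}

/-- The data of a pyramid. -/
structure Pyr (R V : Finset E) (a : E) : Prop where
  conv : ConvPos V
  adim : FV.adim V = 3
  card : V.card = R.card + 1
  defect : defect V = R.card - 3
  miss : miss 3 V = ∅
  base : R ∈ FV.faces V 2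
  tri : ∃ T ∈ FV.faces V 2, T.card = 3
  simple : ∃ v ∈ V, (nbr V v).card = 3
  ex : 4 ≤ R.card → ∃ x p q, x ∈ R ∧ p ∈ R ∧ q ∈ R ∧ EX V a x p q

theorem pyramid [FiniteDimensional ℝ E] (hE : finrank ℝ E = 3) (hR : ConvPos R)
    (hq : 3 ≤ R.card) {h : E →ₗ[ℝ] ℝ} {a : E} (hR0 : ∀ x ∈ R, h x = 0) (ha : h a = 1) :
    Pyr R (insert a R) a := by
  have haR : a ∉ R := fun h1 => by
    have := hR0 a h1
    rw [ha] at this
    exact one_ne_zero this
  have hRne : R.Nonempty := Finset.card_pos.1 (by omega)
  have hRV := Finset.subset_insert a R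
  have P1 : ∀ S, FaceSet R S → FaceSet (insert a R) S := by
    rintro S ⟨h1, h2, l, c, h3, h4⟩
    have haS : a ∉ S := fun h5 => haR (h2 h5)
    refine ⟨h1, h2.trans hRV, l + (c - l a - 1) • h, c, fun x hx => ?_, fun x hx => ?_⟩
    · rw [LinearMap.add_apply, LinearMap.smul_apply, smul_eq_mul]
      rcases Finset.mem_insert.1 hx with rfl | hx
      · rw [ha]
        linarith
      · rw [hR0 x hx, mul_zero, add_zero]
        exact h3 x hx
    · rw [LinearMap.add_apply, LinearMap.smul_apply, smul_eq_mul]
      rcases Finset.mem_insert.1 hx with rfl | hx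
      · rw [ha]
        exact ⟨fun h5 => by linarith, fun h5 => absurd h5 haS⟩
      · rw [hR0 x hx, mul_zero, add_zero]
        exact h4 x hx
  have P2 : ∀ S, FaceSet R S → FaceSet (insert a R) (insert a S) := by
    rintro S ⟨h1, h2, l, c, h3, h4⟩
    refine ⟨Finset.insert_nonempty _ _, Finset.insert_subset_insert _ h2, l + (c - l a) • h, c,
      fun x hx => ?_, fun x hx => ?_⟩
    · rw [LinearMap.add_apply, LinearMap.smul_apply, smul_eq_mul]
      rcases Finset.mem_insert.1 hx with rfl | hx
      · rw [ha]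
        linarith
      · rw [hR0 x hx, mul_zero, add_zero]
        exact h3 x hx
    · rw [LinearMap.add_apply, LinearMap.smul_apply, smul_eq_mul]
      rcases Finset.mem_insert.1 hx with rfl | hx'
      · rw [ha]
        exact ⟨fun _ => Finset.mem_insert_self _ _, fun _ => by ring⟩
      · rw [hR0 x hx', mul_zero, add_zero, h4 x hx', Finset.mem_insert]
        refine ⟨Or.inr, fun h5 => h5.resolve_left fun e => haR ?_⟩
        rw [← e]
        exact hx'
  have P3 : FaceSet (insert a R) {a} := by
    refine ⟨Finset.singleton_nonempty _, Finset.singleton_subset_iff.2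
      (Finset.mem_insert_self _ _), h, 1, fun x hx => ?_, fun x hx => ?_⟩
    · rcases Finset.mem_insert.1 hx with rfl | hx
      · exact ha.le
      · rw [hR0 x hx]
        exact zero_le_one
    · rcases Finset.mem_insert.1 hx with rfl | hx'
      · exact ⟨fun _ => Finset.mem_singleton_self _, fun _ => ha⟩
      · rw [hR0 x hx', Finset.mem_singleton]
        refine ⟨fun h5 => absurd h5 zero_ne_one, fun e => absurd ?_ haR⟩
        rw [← e]
        exact hx'
  have hconv : ConvPos (insert a R) := by
    intro x hx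
    rcases Finset.mem_insert.1 hx with rfl | hx
    · exact P3
    · exact P1 _ (hR x hx)
  have hRF : FaceSet (insert a R) R := P1 R (FaceSet.self hRne)
  have hlt := hRF.adim_lt (Finset.ssubset_insert haR) (Finset.Subset.refl _)
  have hle := adim_le_finrank (insert a R)
  have hge : 2 ≤ FV.adim R := by
    obtain ⟨S, hS, hSc⟩ := Finset.exists_subset_card_eq hq
    obtain ⟨x, y, z, hxy, hxz, hyz, e⟩ := Finset.card_eq_three.1 hSc
    have h1 := adim_mono hS
    rw [e] at h1 hS
    rw [hR.adim_triple (hS (by simp)) (hS (by simp)) (hS (by simp)) hxy hxz hyz] at h1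
    exact h1
  have hR2 : FV.adim R = 2 := by omega
  have hadim : FV.adim (insert a R) = 3 := by omega
  have hbase : R ∈ FV.faces (insert a R) 2 := mem_faces.2 ⟨hRF, hR2⟩
  have hne : ∀ x ∈ R, a ≠ x := fun x hx e => haR (e ▸ hx)
  have hE1 : FV.faces R 1 ∪ R.image (fun x => ({a, x} : Finset E)) ⊆
      FV.faces (insert a R) 1 := by
    intro B hB
    rcases Finset.mem_union.1 hB with h4 | h4
    · obtain ⟨h5, h6⟩ := mem_faces.1 h4
      exact mem_faces.2 ⟨P1 B h5, h6⟩
    · obtain ⟨x, hx, rfl⟩ := Finset.mem_image.1 h4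
      exact mem_faces.2 ⟨P2 {x} (hR x hx), adim_pair (hne x hx)⟩
  have hE2 : (FV.faces R 1 ∪ R.image (fun x => ({a, x} : Finset E))).card =
      R.card + R.card := by
    rw [Finset.card_union_of_disjoint, Finset.card_image_of_injOn, card_edges_polygon hR hR2]
    · intro x hx y hy hxy
      have h4 : x ∈ ({a, y} : Finset E) := by
        rw [← (show ({a, x} : Finset E) = {a, y} from hxy)]
        simp
      rcases Finset.mem_insert.1 h4 with h5 | h5
      · exact absurd h5.symm (hne x hx)
      · exact Finset.mem_singleton.1 h5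
    · rw [Finset.disjoint_left]
      intro B h4 h5
      obtain ⟨x, hx, rfl⟩ := Finset.mem_image.1 h5
      exact haR ((mem_faces.1 h4).1.2.1 (by simp))
  have hf1 := Finset.card_le_card hE1
  rw [hE2] at hf1
  have hdef : R.card - 3 ≤ ES96.defect (insert a R) :=
    Finset.single_le_sum (f := fun F : Finset E => F.card - 3) (fun _ _ => Nat.zero_le _) hbase
  obtain ⟨e2, -⟩ := edges_defect hconv hadim
  rw [Finset.card_insert_of_notMem haR] at e2
  have hmiss : ES85.miss 3 (insert a R) = ∅ := by
    rw [Finset.eq_empty_iff_forall_notMem]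
    intro S hS
    obtain ⟨h1, h2, h4, h5⟩ := ES85.mem_miss.1 hS
    by_cases haS : a ∈ S
    · have hSV : S.erase a ⊆ R := fun v hv => by
        obtain ⟨h7, h8⟩ := Finset.mem_erase.1 hv
        exact (Finset.mem_insert.1 (h1 h8)).resolve_left h7
      have h6 := P2 _ ((h4 a haS).of_subset hRV hSV)
      rw [Finset.insert_erase haS] at h6
      exact h5 h6
    · have hSV : S ⊆ R := fun v hv =>
        (Finset.mem_insert.1 (h1 hv)).resolve_left fun e => haS (e ▸ hv)
      have h6 := triangle_eq hR hR2 hSV h2 fun x hx => (h4 x hx).of_subset hRV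
        ((Finset.erase_subset _ _).trans hSV)
      rw [h6] at h5
      exact h5 hRF
  have hT : ∀ x y, x ∈ R → y ∈ nbr R x → ({a, x, y} : Finset E) ∈ FV.faces (insert a R) 2 := by
    intro x y hx hy
    obtain ⟨h1, h2⟩ := mem_nbr.1 hy
    have hyR : y ∈ R := h2.2.1 (by simp)
    refine mem_faces.2 ⟨P2 _ h2, ?_⟩
    exact hconv.adim_triple (Finset.mem_insert_self _ _) (hRV hx) (hRV hyR) (hne x hx)
      (hne y hyR) h1.symm
  have hcT : ∀ x y, x ∈ R → y ∈ nbr R x → ({a, x, y} : Finset E).card = 3 := by
    intro x y hx hy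
    obtain ⟨h1, h2⟩ := mem_nbr.1 hy
    have hyR : y ∈ R := h2.2.1 (by simp)
    rw [Finset.card_insert_of_notMem, Finset.card_pair h1.symm]
    simp only [Finset.mem_insert, Finset.mem_singleton, not_or]
    exact ⟨hne x hx, hne y hyR⟩
  obtain ⟨x, hx⟩ := hRne
  obtain ⟨p, q, hpq, hnb⟩ := Finset.card_eq_two.1 (card_nbr_polygon hR hR2 hx)
  have hp : p ∈ nbr R x := by
    rw [hnb]
    simp
  have hq' : q ∈ nbr R x := by
    rw [hnb]
    simp
  have hEeq : FV.faces R 1 ∪ R.image (fun x => ({a, x} : Finset E)) =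
      FV.faces (insert a R) 1 :=
    Finset.eq_of_subset_of_card_le hE1 (by omega)
  have hsimple : (nbr (insert a R) x).card = 3 := by
    have h5 := adim_le_card_nbr hconv (hRV hx)
    have h6 : nbr (insert a R) x ⊆ insert a (nbr R x) := by
      intro w hw
      obtain ⟨h7, h8⟩ := mem_nbr.1 hw
      have h9 : ({x, w} : Finset E) ∈ FV.faces (insert a R) 1 :=
        mem_faces.2 ⟨h8, adim_pair h7.symm⟩
      rw [← hEeq] at h9
      rcases Finset.mem_union.1 h9 with h10 | h10
      · exact Finset.mem_insert_of_mem (mem_nbr.2 ⟨h7, (mem_faces.1 h10).1⟩)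
      · obtain ⟨y, hy, hxy⟩ := Finset.mem_image.1 h10
        have h11 : a ∈ ({x, w} : Finset E) := by
          rw [← hxy]
          simp
        rcases Finset.mem_insert.1 h11 with h12 | h12
        · exact absurd h12 (hne x hx)
        · rw [← Finset.mem_singleton.1 h12]
          exact Finset.mem_insert_self _ _
    have h7 := (Finset.card_le_card h6).trans (Finset.card_insert_le _ _)
    rw [card_nbr_polygon hR hR2 hx] at h7
    omega
  refine ⟨hconv, hadim, Finset.card_insert_of_notMem haR, by omega, hmiss, hbase,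
    ⟨_, hT x p hx hp, hcT x p hx hp⟩, ⟨x, hRV hx, hsimple⟩,
    fun h4 => ⟨x, p, q, hx, ?_, ?_, ?_⟩⟩
  · exact (mem_nbr.1 hp).2.2.1 (by simp)
  · exact (mem_nbr.1 hq').2.2.1 (by simp)
  · obtain ⟨hpx, hpF⟩ := mem_nbr.1 hp
    obtain ⟨hqx, hqF⟩ := mem_nbr.1 hq'
    have hpR : p ∈ R := hpF.2.1 (by simp)
    have hqR : q ∈ R := hqF.2.1 (by simp)
    refine ⟨hne x hx, hne p hpR, hne q hqR, hpx.symm, hqx.symm, hpq, hT x p hx hp, hT x q hx hq',
      fun h5 => ?_⟩
    have h6 : FaceSet R {p, q} := h5.of_subset hRV (by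
      intro v hv
      simp only [Finset.mem_insert, Finset.mem_singleton] at hv
      rcases hv with rfl | rfl <;> assumption)
    have hc3 : ({x, p, q} : Finset E).card = 3 := by
      rw [Finset.card_insert_of_notMem, Finset.card_pair hpq]
      simp only [Finset.mem_insert, Finset.mem_singleton, not_or]
      exact ⟨hpx.symm, hqx.symm⟩
    have h7 := triangle_eq hR hR2 (S := {x, p, q}) (by
      intro v hv
      simp only [Finset.mem_insert, Finset.mem_singleton] at hv
      rcases hv with rfl | rfl | rfl <;> assumption) hc3 (by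
      intro v hv
      simp only [Finset.mem_insert, Finset.mem_singleton] at hv
      rcases hv with rfl | rfl | rfl
      · have e : ({v, p, q} : Finset E).erase v = {p, q} := Finset.erase_insert (by
          simp only [Finset.mem_insert, Finset.mem_singleton, not_or]
          exact ⟨hpx.symm, hqx.symm⟩)
        rw [e]
        exact h6
      · have e : ({x, v, q} : Finset E).erase v = {x, q} := by
          ext u
          simp only [Finset.mem_erase, Finset.mem_insert, Finset.mem_singleton]
          constructor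
          · rintro ⟨h8, h9 | h9 | h9⟩
            · exact Or.inl h9
            · exact absurd h9 h8
            · exact Or.inr h9
          · rintro (h9 | h9)
            · exact ⟨fun h8 => hpx (h8 ▸ h9), Or.inl h9⟩
            · exact ⟨fun h8 => hpq (h8 ▸ h9), Or.inr (Or.inr h9)⟩
        rw [e]
        exact hqF
      · have e : ({x, p, v} : Finset E).erase v = {x, p} := by
          ext u
          simp only [Finset.mem_erase, Finset.mem_insert, Finset.mem_singleton]
          constructor
          · rintro ⟨h8, h9 | h9 | h9⟩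
            · exact Or.inl h9
            · exact Or.inr h9
            · exact absurd h9 h8
          · rintro (h9 | h9)
            · exact ⟨fun h8 => hqx (h8 ▸ h9), Or.inl h9⟩
            · exact ⟨fun h8 => hpq ((h8 ▸ h9).symm), Or.inr (Or.inl h9)⟩
        rw [e]
        exact hpF)
    rw [h7] at hc3
    omega

end pyramid

/-- The vertices of the polygon. -/
noncomputable def rv (i : ℕ) : EuclideanSpace ℝ (Fin 3) := !₂[(i : ℝ), (i : ℝ) ^ 2, 0]

theorem rv_inj : Function.Injective rv := by
  intro i j hij
  have h1 := congrFun (congrArg WithLp.ofLp hij) 0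
  simpa [rv] using h1

theorem exists_pyr (q : ℕ) (hq : 3 ≤ q) : ∃ (R V : Finset (EuclideanSpace ℝ (Fin 3)))
    (a : EuclideanSpace ℝ (Fin 3)), R.card = q ∧ Pyr R V a := by
  let co : Fin 3 → EuclideanSpace ℝ (Fin 3) →ₗ[ℝ] ℝ := fun j =>
    (EuclideanSpace.proj (𝕜 := ℝ) j).toLinearMap
  have hR : ConvPos ((Finset.range q).image rv) := by
    intro x hx
    obtain ⟨i, hi, rfl⟩ := Finset.mem_image.1 hx
    have key : ∀ j : ℕ, ((2 * (i : ℝ)) • co 0 - co 1) (rv j) = (i : ℝ) ^ 2 - ((j : ℝ) - i) ^ 2 := by
      intro j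
      simp [co, rv]
      ring
    refine ⟨Finset.singleton_nonempty _, Finset.singleton_subset_iff.2 hx,
      (2 * (i : ℝ)) • co 0 - co 1, (i : ℝ) ^ 2, fun y hy => ?_, fun y hy => ?_⟩
    · obtain ⟨j, hj, rfl⟩ := Finset.mem_image.1 hy
      rw [key]
      nlinarith [sq_nonneg ((j : ℝ) - i)]
    · obtain ⟨j, hj, rfl⟩ := Finset.mem_image.1 hy
      rw [key, Finset.mem_singleton, rv_inj.eq_iff]
      constructor
      · intro h1
        have h2 : ((j : ℝ) - i) ^ 2 = 0 := by linarith
        have h3 : (j : ℝ) - i = 0 := by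
          exact pow_eq_zero_iff (two_ne_zero) |>.1 h2
        have h4 : (j : ℝ) = i := by linarith
        exact_mod_cast h4
      · rintro rfl
        ring
  have hc : ((Finset.range q).image rv).card = q := by
    rw [Finset.card_image_of_injective _ rv_inj, Finset.card_range]
  refine ⟨_, _, !₂[0, 0, 1], hc, pyramid (by simp) hR (by omega) (h := co 2) ?_ ?_⟩
  · intro x hx
    obtain ⟨i, hi, rfl⟩ := Finset.mem_image.1 hx
    simp [co, rv]
  · simp [co]

end Pool.Agent.ES96
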