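import Pool.Agent.Lib.ES85.CutD
import Pool.Agent.Lib.MP_e9c977_fv.DPrime

/-!
# Cutting an arbitrary polytope along an empty `(d - 1)`-simplex
-/

set_option autoImplicit false

namespace Pool.Agent.ES96

open Module Pool.Agent.FV Pool.Agent.ES85
open scoped Classical

variable {E : Type} [NormedAddCommGroup E] [InnerProductSpace ℝ E]

variable {V T : Finset E} {h : E →ₗ[ℝ] ℝ} {c : ℝ} {d : ℕ}

/-- Proper faces do not cross the hyperplane of an empty simplex. -/
theorem nocross (C : CutD d V T h c) (hVd : FV.adim V = d) {S : Finset E}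
    (hS : FaceSet V S) (hSV : S ≠ V) : (∀ x ∈ S, h x ≤ c) ∨ ∀ x ∈ S, c ≤ h x := by
  by_contra hcon
  push Not at hcon
  obtain ⟨⟨x, hxS, hx⟩, ⟨y, hyS, hy⟩⟩ := hcon
  have hxV := hS.2.1 hxS
  have hyV := hS.2.1 hyS
  obtain ⟨t, ht0, ht1, hp, hpc⟩ := exists_seg hxV hyV hx hy
  obtain ⟨w, hw0, hw1, hw2⟩ := C.hyp.mem _ hp hpc
  obtain ⟨hSne, hSV', l, e, hl, hl'⟩ := id hS
  have hlx : l x = e := (hl' x hxV).2 hxS
  have hly : l y = e := (hl' y hyV).2 hyS
  have hlp : l (t • x + (1 - t) • y) = e := by
    rw [map_add, map_smul, map_smul, hlx, hly, smul_eq_mul, smul_eq_mul]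
    ring
  have key : ∀ i : {x // x ∈ T}, w i ≠ 0 → (i : E) ∈ S := by
    have h0 : ∑ i, w i * (l (i : E) - e) = 0 := by
      rw [← hw2, map_sum] at hlp
      simp only [map_smul, smul_eq_mul] at hlp
      simp only [mul_sub, Finset.sum_sub_distrib, ← Finset.sum_mul, hw1, hlp]
      ring
    intro i hi
    have h3 := (Finset.sum_eq_zero_iff_of_nonpos fun i _ =>
      mul_nonpos_of_nonneg_of_nonpos (hw0 i) (sub_nonpos.2 (hl i (C.sub i.2)))).1 h0 i
      (Finset.mem_univ i)
    rcases mul_eq_zero.1 h3 with h4 | h4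
    · exact absurd h4 hi
    · exact (hl' i (C.sub i.2)).1 (by linarith)
  have hex : ∃ i, w i ≠ 0 := by
    by_contra hno
    push Not at hno
    rw [Finset.sum_eq_zero fun i _ => hno i] at hw1
    exact zero_ne_one hw1
  obtain ⟨i0, hi0⟩ := hex
  by_cases hTS : T ⊆ S
  · have hxT : x ∉ T := fun hxT => by
      have := C.hyp.eq x hxT
      linarith
    have h1 : FaceSet (insert x T) T := by
      refine ⟨⟨i0, i0.2⟩, Finset.subset_insert _ _, -h, -c, fun z hz => ?_, fun z hz => ?_⟩
      · rcases Finset.mem_insert.1 hz with rfl | hz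
        · rw [LinearMap.neg_apply]
          linarith
        · rw [LinearMap.neg_apply, C.hyp.eq z hz]
      · rw [LinearMap.neg_apply, neg_inj]
        rcases Finset.mem_insert.1 hz with rfl | hz
        · exact ⟨fun h2 => by linarith, fun h2 => absurd h2 hxT⟩
        · exact ⟨fun _ => hz, fun _ => C.hyp.eq z hz⟩
    have h2 := h1.adim_lt (Finset.ssubset_insert hxT) (Finset.Subset.refl _)
    have h3 : FV.adim (insert x T) ≤ FV.adim S := adim_mono (Finset.insert_subset hxS hTS)
    have h4 := hS.adim_lt (lt_of_le_of_ne hSV' hSV) (Finset.Subset.refl _)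
    have h5 := C.adim
    omega
  · have h1 : T ∩ S ⊂ T := by
      refine lt_of_le_of_ne Finset.inter_subset_left fun e1 => hTS ?_
      exact Finset.inter_eq_left.1 e1
    have h2 : (T ∩ S).Nonempty := ⟨i0, Finset.mem_inter.2 ⟨i0.2, key i0 hi0⟩⟩
    obtain ⟨-, -, m, γ, hm, hm'⟩ := C.faces _ h1 h2
    have hmp : m (t • x + (1 - t) • y) = γ := by
      rw [← hw2, map_sum]
      simp only [map_smul, smul_eq_mul]
      calc ∑ i, w i * m (i : E) = ∑ i, w i * γ := by
            refine Finset.sum_congr rfl fun i _ => ?_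
            by_cases hi : w i = 0
            · rw [hi, zero_mul, zero_mul]
            · rw [(hm' i (C.sub i.2)).2 (Finset.mem_inter.2 ⟨i.2, key i hi⟩)]
        _ = γ := by rw [← Finset.sum_mul, hw1, one_mul]
    rw [map_add, map_smul, map_smul, smul_eq_mul, smul_eq_mul] at hmp
    have hmx := hm x hxV
    have hmy := hm y hyV
    have hmx' : m x = γ := by nlinarith
    have := C.hyp.eq x (Finset.mem_inter.1 ((hm' x hxV).1 hmx')).1
    linarith

/-- The faces of the upper part. -/
theorem upper_face_iff' (C : CutD d V T h c) (hVd : FV.adim V = d) {S : Finset E}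
    (hS : S ⊆ upper V h c) (hne : S ≠ upper V h c) (hST : S ≠ T) :
    FaceSet (upper V h c) S ↔ FaceSet V S := by
  refine ⟨?_, fun hF => hF.of_subset (Finset.filter_subset _ _) hS⟩
  intro hF
  have H := C.hyp
  by_cases hsub : S ⊆ T
  · exact C.faces S (lt_of_le_of_ne hsub hST) hF.1
  obtain ⟨hSne, _, l, e, hld, hld'⟩ := hF
  obtain ⟨x, hxS, hxT⟩ := Finset.not_subset.1 hsub
  have hxU := mem_upper.1 (hS hxS)
  have hgx : c < h x := by
    refine lt_of_le_of_ne hxU.2 ?_
    intro he
    exact hxT (H.vert x hxU.1 he.symm)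
  have hlx : l x = e := (hld' x (hS hxS)).2 hxS
  have hlT : ∀ y ∈ T, l y ≤ e := fun y hy => hld y (sub_upper H C.sub hy)
  have hle : ∀ y ∈ V, l y ≤ e := by
    intro y hy
    by_cases hgy : c ≤ h y
    · exact hld y (mem_upper.2 ⟨hy, hgy⟩)
    push Not at hgy
    by_contra hly
    push Not at hly
    obtain ⟨t, ht0, ht1, hz, hgz⟩ := exists_seg hxU.1 hy hgx hgy
    have h1 : -e ≤ (-l) (t • x + (1 - t) • y) := H.le hz hgz fun s hs => by
      rw [LinearMap.neg_apply]
      linarith [hlT s hs]
    rw [LinearMap.neg_apply, map_add, map_smul, map_smul, hlx] at h1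
    simp only [smul_eq_mul] at h1
    nlinarith
  refine ⟨hSne, hS.trans (Finset.filter_subset _ _), l, e, hle, ?_⟩
  intro y hy
  refine ⟨?_, fun hyS => (hld' y (hS hyS)).2 hyS⟩
  intro hly
  by_cases hgy : c ≤ h y
  · exact (hld' y (mem_upper.2 ⟨hy, hgy⟩)).1 hly
  exfalso
  push Not at hgy
  have hF'' : FaceSet V (V.filter (fun v => l v = e)) := by
    refine ⟨⟨y, Finset.mem_filter.2 ⟨hy, hly⟩⟩, Finset.filter_subset _ _, l, e, hle, ?_⟩
    intro v hv
    simp [hv]
  by_cases hall : V.filter (fun v => l v = e) = V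
  · apply hne
    refine Finset.Subset.antisymm hS ?_
    intro v hv
    have hvV := (mem_upper.1 hv).1
    rw [← hall] at hvV
    exact (hld' v hv).1 (Finset.mem_filter.1 hvV).2
  · rcases nocross C hVd hF'' hall with h1 | h1
    · have := h1 x (Finset.mem_filter.2 ⟨hxU.1, hlx⟩)
      linarith
    · have := h1 y (Finset.mem_filter.2 ⟨hy, hly⟩)
      linarith

/-- The edges of the upper part. -/
theorem edges_upper [FiniteDimensional ℝ E] (C : CutD d V T h c) (hd : 3 ≤ d)
    (hE : finrank ℝ E = d) (hVd : FV.adim V = d) (hTne : T.Nonempty) :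
    FV.faces (upper V h c) 1 = (FV.faces V 1).filter (fun B => B ⊆ upper V h c) := by
  have had := C.adim_upper hE hTne
  ext B
  rw [Finset.mem_filter]
  constructor
  · intro hB
    obtain ⟨h1, h2⟩ := mem_faces.1 hB
    have h3 : B ≠ upper V h c := by
      rintro rfl
      omega
    have h4 : B ≠ T := by
      rintro rfl
      have := C.adim
      omega
    exact ⟨mem_faces.2 ⟨(upper_face_iff' C hVd h1.2.1 h3 h4).1 h1, h2⟩, h1.2.1⟩
  · rintro ⟨h1, h2⟩
    obtain ⟨h3, h4⟩ := mem_faces.1 h1
    exact mem_faces.2 ⟨h3.of_subset (Finset.filter_subset _ _) h2, h4⟩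

/-- The numbers of edges. -/
theorem card_edges_cut [FiniteDimensional ℝ E] (C : CutD d V T h c) (hd : 3 ≤ d)
    (hE : finrank ℝ E = d) (hV : ConvPos V) (h4 : FV.adim V = d)
    (hTne : T.Nonempty) :
    (FV.faces (upper V h c) 1).card + (FV.faces (upper V (-h) (-c)) 1).card =
      (FV.faces V 1).card + d.choose 2 := by
  have e1 := edges_upper C hd hE h4 hTne
  have e2 := edges_upper C.neg hd hE h4 hTne
  rw [e1, e2, ← Finset.card_union_add_card_inter]
  congr 1
  · congr 1
    ext B
    rw [Finset.mem_union, Finset.mem_filter, Finset.mem_filter]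
    constructor
    · rintro (h1 | h1)
      · exact h1.1
      · exact h1.1
    · intro h1
      obtain ⟨h2, h3⟩ := mem_faces.1 h1
      have h5 : B ≠ V := by
        rintro rfl
        omega
      rcases nocross C h4 h2 h5 with h6 | h6
      · exact Or.inr ⟨h1, fun x hx => mem_upper.2 ⟨h2.2.1 hx, by
          rw [LinearMap.neg_apply]
          linarith [h6 x hx]⟩⟩
      · exact Or.inl ⟨h1, fun x hx => mem_upper.2 ⟨h2.2.1 hx, h6 x hx⟩⟩
  · have h1 : (FV.faces V 1).filter (fun B => B ⊆ upper V h c) ∩
        (FV.faces V 1).filter (fun B => B ⊆ upper V (-h) (-c)) = T.powersetCard 2 := by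
      ext B
      rw [Finset.mem_inter, Finset.mem_filter, Finset.mem_filter, Finset.mem_powersetCard]
      constructor
      · rintro ⟨⟨h1, h2⟩, -, h3⟩
        refine ⟨?_, PGAux.card_pair hV h1⟩
        rw [← inter_upper C.hyp C.sub]
        exact Finset.subset_inter h2 h3
      · rintro ⟨h1, h2⟩
        obtain ⟨x, y, hxy, rfl⟩ := Finset.card_eq_two.1 h2
        have h3 : FaceSet V {x, y} := by
          refine C.faces _ (lt_of_le_of_ne h1 ?_) (Finset.insert_nonempty _ _)
          intro e
          have := C.card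
          rw [← e, Finset.card_pair hxy] at this
          omega
        have h5 : ({x, y} : Finset E) ∈ FV.faces V 1 := mem_faces.2 ⟨h3, adim_pair hxy⟩
        have h6 := h1
        rw [← inter_upper C.hyp C.sub] at h6
        exact ⟨⟨h5, fun z hz => (Finset.mem_inter.1 (h6 hz)).1⟩, h5,
          fun z hz => (Finset.mem_inter.1 (h6 hz)).2⟩
    rw [h1, Finset.card_powersetCard, C.card]

/-- The numbers of vertices. -/
theorem card_cut (C : CutD d V T h c) :
    (upper V h c).card + (upper V (-h) (-c)).card = V.card + d := by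
  rw [← Finset.card_union_add_card_inter, inter_upper C.hyp C.sub, union_upper, C.card]

theorem card_upper_lt (C : CutD d V T h c) : (upper V h c).card < V.card := by
  refine Finset.card_lt_card (lt_of_le_of_ne (Finset.filter_subset _ _) fun e => ?_)
  obtain ⟨v, hv, h1⟩ := C.hyp.neg
  have h2 : v ∈ upper V h c := by
    show v ∈ upper V h c
    rw [show upper V h c = V from e]
    exact hv
  have := (mem_upper.1 h2).2
  linarith

/-- Every other missing `d`-set is on one side. -/
theorem miss_cut [FiniteDimensional ℝ E] (C : CutD d V T h c) (hd : 3 ≤ d)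
    (hE : finrank ℝ E = d) (hVd : FV.adim V = d) (hTne : T.Nonempty) :
    miss d V ⊆ insert T (miss d (upper V h c) ∪ miss d (upper V (-h) (-c))) := by
  have key : ∀ (h' : E →ₗ[ℝ] ℝ) (c' : ℝ), CutD d V T h' c' → ∀ S ∈ miss d V, S ≠ T →
      (∀ x ∈ S, c' ≤ h' x) → S ∈ miss d (upper V h' c') := by
    intro h' c' C' S hS hST hup
    obtain ⟨h1, h2, h3, h4⟩ := mem_miss.1 hS
    have hsub : S ⊆ upper V h' c' := fun x hx => mem_upper.2 ⟨h1 hx, hup x hx⟩
    refine mem_miss.2 ⟨hsub, h2, fun x hx => (h3 x hx).of_subset (Finset.filter_subset _ _)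
      ((Finset.erase_subset _ _).trans hsub), fun hF => h4 ?_⟩
    refine (upper_face_iff' C' hVd hsub ?_ hST).1 hF
    rintro rfl
    have h5 := C'.adim_upper hE hTne
    have h6 := adim_add_one_le_card hF.1
    omega
  intro S hS
  by_cases hST : S = T
  · rw [hST]
    exact Finset.mem_insert_self _ _
  refine Finset.mem_insert_of_mem (Finset.mem_union.2 ?_)
  by_cases h1 : ∀ x ∈ S, c ≤ h x
  · exact Or.inl (key h c C S hS hST h1)
  · push Not at h1
    obtain ⟨x, hx, hxc⟩ := h1
    refine Or.inr (key (-h) (-c) C.neg S hS hST fun y hy => ?_)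
    rw [LinearMap.neg_apply, neg_le_neg_iff]
    by_contra hyc
    push Not at hyc
    obtain ⟨h5, h2, h3, h4⟩ := mem_miss.1 hS
    have hxy : x ≠ y := by
      rintro rfl
      linarith
    obtain ⟨z, hz, hzn⟩ : ∃ z ∈ S, z ∉ ({x, y} : Finset E) := by
      by_contra hcon
      push Not at hcon
      have := Finset.card_le_card (show S ⊆ {x, y} from hcon)
      rw [Finset.card_pair hxy] at this
      omega
    have hzx : x ≠ z := by
      rintro rfl
      simp at hzn
    have hzy : y ≠ z := by
      rintro rfl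
      simp at hzn
    have h6 : S.erase z ≠ V := by
      intro e
      have h7 := congrArg FV.adim e
      have h8 := adim_add_one_le_card (S := S.erase z) ⟨x, Finset.mem_erase.2 ⟨hzx, hx⟩⟩
      rw [Finset.card_erase_of_mem hz] at h8
      omega
    rcases nocross C hVd (h3 z hz) h6 with h7 | h7
    · have := h7 y (Finset.mem_erase.2 ⟨hzy, hy⟩)
      linarith
    · have := h7 x (Finset.mem_erase.2 ⟨hzx, hx⟩)
      linarith

theorem card_miss_cut [FiniteDimensional ℝ E] (C : CutD d V T h c) (hd : 3 ≤ d)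
    (hE : finrank ℝ E = d) (hVd : FV.adim V = d) (hTne : T.Nonempty) :
    (miss d V).card ≤ (miss d (upper V h c)).card + (miss d (upper V (-h) (-c))).card + 1 :=
  calc (miss d V).card ≤ _ := Finset.card_le_card (miss_cut C hd hE hVd hTne)
    _ ≤ (miss d (upper V h c) ∪ miss d (upper V (-h) (-c))).card + 1 := Finset.card_insert_le _ _
    _ ≤ _ := by
      have := Finset.card_union_le (miss d (upper V h c)) (miss d (upper V (-h) (-c)))
      omega

/-- **The number of edges of a polytope with empty `(d - 1)`-simplices.** -/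
theorem edges_ge [FiniteDimensional ℝ E] (hd : 3 ≤ d) (hE : finrank ℝ E = d) :
    ∀ (N : ℕ) (V : Finset E), V.card = N → ConvPos V → FV.adim V = d →
      d * (V.card + (miss d V).card) ≤ 2 * (FV.faces V 1).card := by
  intro N
  induction N using Nat.strong_induction_on with
  | _ N ih =>
    intro V hN hV h4
    rcases (miss d V).eq_empty_or_nonempty with h0 | ⟨T, hT⟩
    · rw [h0, Finset.card_empty, add_zero, ← sum_card_nbr hV]
      calc d * V.card = ∑ _x ∈ V, d := by simp [mul_comm]
        _ ≤ ∑ x ∈ V, (nbr V x).card := Finset.sum_le_sum fun x hx => by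
            have := adim_le_card_nbr hV hx
            omega
    · obtain ⟨h1, h2, h3, h5⟩ := mem_miss.1 hT
      obtain ⟨h, c, C⟩ := exists_cutD (by omega) hE hV h4 h1 h2 h3 h5
      have hTne : T.Nonempty := Finset.card_pos.1 (by omega)
      have a1 := card_cut C
      have a2 := card_edges_cut C hd hE hV h4 hTne
      have a3 := card_miss_cut C hd hE h4 hTne
      have a4 := card_upper_lt C
      have a5 := card_upper_lt C.neg
      have b1 := ih _ (by omega) (upper V h c) rfl (hV.mono (Finset.filter_subset _ _))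
        (C.adim_upper hE hTne)
      have b2 := ih _ (by omega) (upper V (-h) (-c)) rfl (hV.mono (Finset.filter_subset _ _))
        (C.neg.adim_upper hE hTne)
      have e1 : 2 * d.choose 2 = d * (d - 1) := by
        rw [Nat.choose_two_right]
        exact Nat.mul_div_cancel' (Nat.even_mul_pred_self d).two_dvd
      obtain ⟨q, rfl⟩ : ∃ q, d = q + 1 := ⟨d - 1, by omega⟩
      rw [Nat.add_sub_cancel] at e1
      nlinarith

end Pool.Agent.ES96
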