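import Pool.Agent.Lib.ES96.Nec2

/-!
# Adding a point
-/

set_option autoImplicit false

namespace Pool.Agent.ES96

open Module Pool.Agent.FV Pool.Agent.ES85 Filter Topology
open scoped Classical

variable {E : Type} [NormedAddCommGroup E] [InnerProductSpace ℝ E] {V S T : Finset E} {z : E}

/-- The face `S` does not see the point `z`. -/
def Under (V S : Finset E) (z : E) : Prop :=
  ∃ (l : E →ₗ[ℝ] ℝ) (c : ℝ), (∀ x ∈ V, l x ≤ c) ∧ (∀ x ∈ V, (l x = c ↔ x ∈ S)) ∧ l z < c

/-- The face `S` sees the point `z`. -/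
def Beyond (V S : Finset E) (z : E) : Prop :=
  ∃ (l : E →ₗ[ℝ] ℝ) (c : ℝ), (∀ x ∈ V, l x ≤ c) ∧ (∀ x ∈ V, (l x = c ↔ x ∈ S)) ∧ c < l z

theorem Beyond.notMem (h : Beyond V T z) : z ∉ V := by
  obtain ⟨l, c, h1, -, h2⟩ := h
  intro h3
  have := h1 z h3
  linarith

theorem Under.keep (h : Under V S z) (hne : S.Nonempty) (hSV : S ⊆ V) :
    FaceSet (insert z V) S := by
  obtain ⟨l, c, h1, h2, h3⟩ := h
  refine ⟨hne, hSV.trans (Finset.subset_insert _ _), l, c, fun x hx => ?_, fun x hx => ?_⟩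
  · rcases Finset.mem_insert.1 hx with rfl | hx
    · exact h3.le
    · exact h1 x hx
  · rcases Finset.mem_insert.1 hx with rfl | hx
    · refine ⟨fun h4 => absurd h4 h3.ne, fun h4 => ?_⟩
      exact (h2 x (hSV h4)).2 h4
    · exact h2 x hx

/-- The functional of a new face. -/
theorem exists_join (hT : Beyond V T z) (hS : Under V S z) : ∃ (l : E →ₗ[ℝ] ℝ) (c : ℝ),
    (∀ x ∈ V, l x ≤ c) ∧ (∀ x ∈ V, (l x = c ↔ x ∈ S ∩ T)) ∧ l z = c := by
  obtain ⟨l, c, h1, h2, h3⟩ := hT
  obtain ⟨m, γ, g1, g2, g3⟩ := hS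
  obtain ⟨a, ha⟩ : ∃ a, a = l z - c := ⟨_, rfl⟩
  obtain ⟨b, hb⟩ : ∃ b, b = γ - m z := ⟨_, rfl⟩
  have ha0 : 0 < a := by linarith
  have hb0 : 0 < b := by linarith
  refine ⟨b • l + a • m, b * c + a * γ, fun x hx => ?_, fun x hx => ?_, ?_⟩
  · rw [LinearMap.add_apply, LinearMap.smul_apply, LinearMap.smul_apply, smul_eq_mul, smul_eq_mul]
    have := mul_le_mul_of_nonneg_left (h1 x hx) hb0.le
    have := mul_le_mul_of_nonneg_left (g1 x hx) ha0.le
    linarith
  · rw [LinearMap.add_apply, LinearMap.smul_apply, LinearMap.smul_apply, smul_eq_mul, smul_eq_mul,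
      Finset.mem_inter, ← h2 x hx, ← g2 x hx]
    constructor
    · intro h4
      have e1 := h1 x hx
      have e2 := g1 x hx
      constructor
      · by_contra h5
        have h6 : m x < γ := lt_of_le_of_ne e2 h5
        have h7 := mul_lt_mul_of_pos_left h6 ha0
        have h8 := mul_le_mul_of_nonneg_left e1 hb0.le
        linarith
      · by_contra h5
        have h6 : l x < c := lt_of_le_of_ne e1 h5
        have h7 := mul_lt_mul_of_pos_left h6 hb0
        have h8 := mul_le_mul_of_nonneg_left e2 ha0.le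
        linarith
    · rintro ⟨h4, h5⟩
      rw [h4, h5]
  · rw [LinearMap.add_apply, LinearMap.smul_apply, LinearMap.smul_apply, smul_eq_mul, smul_eq_mul,
      ha, hb]
    ring

theorem join (hTV : T ⊆ V) (hT : Beyond V T z) (hS : Under V S z) :
    FaceSet (insert z V) (insert z (S ∩ T)) := by
  have hz := hT.notMem
  obtain ⟨l, c, h1, h2, h3⟩ := exists_join hT hS
  have hSV : S ∩ T ⊆ V := Finset.inter_subset_right.trans hTV
  refine ⟨Finset.insert_nonempty _ _, Finset.insert_subset_insert _ hSV, l, c, fun x hx => ?_,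
    fun x hx => ?_⟩
  · rcases Finset.mem_insert.1 hx with rfl | hx
    · exact h3.le
    · exact h1 x hx
  · rcases Finset.mem_insert.1 hx with rfl | hx'
    · exact ⟨fun _ => Finset.mem_insert_self _ _, fun _ => h3⟩
    · rw [h2 x hx', Finset.mem_insert]
      refine ⟨fun h4 => Or.inr h4, fun h4 => ?_⟩
      rcases h4 with h4 | h4
      · rw [h4] at hx'
        exact absurd hx' hz
      · exact h4

/-- Points near the centroid of `T`. -/
theorem eventually_under (hTV : T ⊆ V) {m : E} (hm : (T.card : ℝ) • m = ∑ y ∈ T, y)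
    (hT : T.Nonempty) (u : E) :
    ∀ᶠ ε in 𝓝[>] (0 : ℝ), ∀ S, FaceSet V S → ¬ T ⊆ S → Under V S (m + ε • u) := by
  have hcpos : (0 : ℝ) < T.card := by exact_mod_cast hT.card_pos
  have key : ∀ S ∈ V.powerset, ∀ᶠ ε in 𝓝[>] (0 : ℝ), FaceSet V S → ¬ T ⊆ S →
      Under V S (m + ε • u) := by
    intro S _
    by_cases hS : FaceSet V S
    · by_cases hTS : T ⊆ S
      · exact Eventually.of_forall fun ε _ h => absurd hTS h
      · obtain ⟨-, hSV, l, c, hl, hl'⟩ := id hS
        have h1 : l m < c := by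
          have h2 : (T.card : ℝ) * l m = ∑ y ∈ T, l y := by
            have := congrArg l hm
            rwa [map_smul, map_sum, smul_eq_mul] at this
          obtain ⟨x, hx, hxS⟩ := Finset.not_subset.1 hTS
          have h3 : ∑ y ∈ T, l y < ∑ _y ∈ T, c := by
            refine Finset.sum_lt_sum (fun y hy => hl y (hTV hy)) ⟨x, hx, ?_⟩
            exact lt_of_le_of_ne (hl x (hTV hx)) (fun h => hxS ((hl' x (hTV hx)).1 h))
          rw [Finset.sum_const, nsmul_eq_mul, ← h2] at h3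
          exact lt_of_mul_lt_mul_left h3 hcpos.le
        have h2 : Tendsto (fun ε : ℝ => l m + ε * l u) (𝓝[>] 0) (𝓝 (l m + 0 * l u)) :=
          (Continuous.tendsto (by fun_prop) 0).mono_left nhdsWithin_le_nhds
        rw [zero_mul, add_zero] at h2
        filter_upwards [h2.eventually_lt_const h1] with ε hε _ _
        exact ⟨l, c, hl, hl', by rw [map_add, map_smul, smul_eq_mul]; exact hε⟩
    · exact Eventually.of_forall fun ε h => absurd h hS
  have h1 := (Finset.eventually_all V.powerset).2 key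
  filter_upwards [h1] with ε hε S hS hTS
  exact hε S (Finset.mem_powerset.2 hS.2.1) hS hTS

/-- A centroid. -/
theorem exists_centroid (hT : T.Nonempty) : ∃ m : E, (T.card : ℝ) • m = ∑ y ∈ T, y := by
  have hcpos : (T.card : ℝ) ≠ 0 := by exact_mod_cast hT.card_pos.ne'
  exact ⟨(T.card : ℝ)⁻¹ • ∑ y ∈ T, y, by rw [smul_smul, mul_inv_cancel₀ hcpos, one_smul]⟩

theorem apply_centroid {m : E} (hT : T.Nonempty) (hm : (T.card : ℝ) • m = ∑ y ∈ T, y)
    {l : E →ₗ[ℝ] ℝ} {c : ℝ} (hl : ∀ x ∈ T, l x = c) : l m = c := by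
  have hcpos : (T.card : ℝ) ≠ 0 := by exact_mod_cast hT.card_pos.ne'
  have h2 : (T.card : ℝ) * l m = ∑ y ∈ T, l y := by
    have := congrArg l hm
    rwa [map_smul, map_sum, smul_eq_mul] at this
  rw [Finset.sum_congr rfl hl, Finset.sum_const, nsmul_eq_mul] at h2
  exact mul_left_cancel₀ hcpos h2

/-- A facet which sees a point near it, opposite to a vertex `o`. -/
theorem beyond_of {m o : E} {ε : ℝ} (hε : 0 < ε) (hTV : T ⊆ V) (hF : FaceSet V T)
    (hm : (T.card : ℝ) • m = ∑ y ∈ T, y) (ho : o ∈ V) (hoT : o ∉ T) :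
    Beyond V T (m + ε • (m - o)) := by
  obtain ⟨hne, -, l, c, hl, hl'⟩ := hF
  have h1 := apply_centroid (l := l) (c := c) hne hm fun x hx => (hl' x (hTV hx)).2 hx
  have h2 : l o < c := lt_of_le_of_ne (hl o ho) fun e => hoT ((hl' o ho).1 e)
  refine ⟨l, c, hl, hl', ?_⟩
  rw [map_add, map_smul, map_sub, h1, smul_eq_mul]
  have := mul_pos hε (sub_pos.2 h2)
  linarith

end Pool.Agent.ES96
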