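import Pool.Agent.Lib.ES96.Cut
import Pool.Agent.Lib.ES85.Nec

/-!
# The necessary conditions for polytopes of dimension three
-/

set_option autoImplicit false

namespace Pool.Agent.ES96

open Module Pool.Agent.FV Pool.Agent.ES85
open scoped Classical

variable {E : Type} [NormedAddCommGroup E] [InnerProductSpace ℝ E] {V T : Finset E} {d : ℕ}
  {h : E →ₗ[ℝ] ℝ} {c : ℝ}

theorem miss_eq' (hd : 3 ≤ d) (h4 : FV.adim V = d) :
    miss d V = emptySimplices V (d - 1) := by
  have hVne : V.Nonempty := FV.MOAux.nonempty_of_adim (k := d - 1) (by omega)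
  ext S
  rw [mem_miss, emptySimplices, Finset.mem_filter, Finset.mem_powersetCard]
  have e1 : d - 1 + 1 = d := by omega
  rw [e1]
  constructor
  · rintro ⟨h1, h2, h3, h5⟩
    refine ⟨⟨h1, h2⟩, fun T hT => ?_, fun h6 => h5 (isFace_iff_faceSet.1 h6).1⟩
    obtain ⟨h7, h8⟩ := Finset.mem_powersetCard.1 hT
    obtain ⟨x, hx, hxS⟩ : ∃ x ∈ S, x ∉ T := by
      by_contra hcon
      push Not at hcon
      have := Finset.card_le_card (show S ⊆ T from hcon)
      omega
    have h9 : T = S.erase x := by
      refine Finset.eq_of_subset_of_card_le (fun y hy => Finset.mem_erase.2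
        ⟨fun e => hxS (e ▸ hy), h7 hy⟩) ?_
      rw [Finset.card_erase_of_mem hx]
      omega
    rw [h9]
    refine isFace_iff_faceSet.2 ⟨h3 x hx, ne_of_card hVne ?_⟩
    rw [Finset.card_erase_of_mem hx]
    omega
  · rintro ⟨⟨h1, h2⟩, h3, h5⟩
    refine ⟨h1, h2, fun x hx => ?_, fun h6 => h5 (isFace_iff_faceSet.2
      ⟨h6, ne_of_card hVne (by omega)⟩)⟩
    exact (isFace_iff_faceSet.1 (h3 _ (Finset.mem_powersetCard.2 ⟨Finset.erase_subset _ _, by
      rw [Finset.card_erase_of_mem hx, h2]⟩))).1

/-- **The general inequality.** -/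
theorem general [FiniteDimensional ℝ E] (hd : 3 ≤ d) (hE : finrank ℝ E = d) (hV : IsPolytope V) :
    2 * (emptySimplices V 1).card + d * (V.card + (emptySimplices V (d - 1)).card) ≤
      V.card * (V.card - 1) := by
  obtain ⟨hc, h4⟩ := convPos_of (by omega) hV
  rw [hE] at h4
  have h1 := edges_ge hd hE _ V rfl hc h4
  have h2 := card_edges_add (by omega) hc h4
  rw [miss_eq' hd h4] at h1
  have e1 : 2 * V.card.choose 2 = V.card * (V.card - 1) := by
    rw [Nat.choose_two_right]
    exact Nat.mul_div_cancel' (Nat.even_mul_pred_self _).two_dvd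
  omega

/-- The missing sets of the upper part. -/
theorem miss_upper_subset [FiniteDimensional ℝ E] (C : CutD d V T h c) (hd : 3 ≤ d)
    (hE : finrank ℝ E = d) (hVd : FV.adim V = d) (hTne : T.Nonempty) {S : Finset E}
    (hS : S ∈ miss d (upper V h c)) : S ∈ miss d V ∧ S ≠ T := by
  obtain ⟨h1, h2, h3, h4⟩ := mem_miss.1 hS
  have had := C.adim_upper hE hTne
  have hUne : (upper V h c).Nonempty := hTne.mono (sub_upper C.hyp C.sub)
  refine ⟨mem_miss.2 ⟨h1.trans (Finset.filter_subset _ _), h2, fun x hx => ?_, fun h5 => h4 ?_⟩, ?_⟩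
  · refine (upper_face_iff' C hVd ((Finset.erase_subset _ _).trans h1) ?_ ?_).1 (h3 x hx)
    · refine ne_of_card hUne ?_
      rw [Finset.card_erase_of_mem hx]
      omega
    · intro e
      have h5 := congrArg Finset.card e
      rw [Finset.card_erase_of_mem hx, C.card] at h5
      omega
  · exact h5.of_subset (Finset.filter_subset _ _) h1
  · rintro rfl
    exact h4 (upper_face_T C.hyp C.sub hTne)

theorem card_miss_cut_ge [FiniteDimensional ℝ E] (C : CutD d V T h c) (hd : 3 ≤ d)
    (hE : finrank ℝ E = d) (hVd : FV.adim V = d) (hT : T ∈ miss d V) :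
    (miss d (upper V h c)).card + (miss d (upper V (-h) (-c))).card + 1 ≤ (miss d V).card := by
  have hTne : T.Nonempty := Finset.card_pos.1 (by
    have := C.card
    omega)
  have h1 : miss d (upper V h c) ∪ miss d (upper V (-h) (-c)) ⊆ (miss d V).erase T := by
    intro S hS
    rcases Finset.mem_union.1 hS with h2 | h2
    · obtain ⟨h3, h4⟩ := miss_upper_subset C hd hE hVd hTne h2
      exact Finset.mem_erase.2 ⟨h4, h3⟩
    · obtain ⟨h3, h4⟩ := miss_upper_subset C.neg hd hE hVd hTne h2
      exact Finset.mem_erase.2 ⟨h4, h3⟩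
  have h2 : Disjoint (miss d (upper V h c)) (miss d (upper V (-h) (-c))) := by
    rw [Finset.disjoint_left]
    intro S h3 h4
    have h5 : S ⊆ T := by
      rw [← inter_upper C.hyp C.sub]
      exact Finset.subset_inter (mem_miss.1 h3).1 (mem_miss.1 h4).1
    have h6 : S = T := Finset.eq_of_subset_of_card_le h5 (by
      rw [C.card, (mem_miss.1 h3).2.1])
    exact (miss_upper_subset C hd hE hVd hTne h3).2 h6
  have h3 := Finset.card_le_card h1
  rw [Finset.card_union_of_disjoint h2, Finset.card_erase_of_mem hT] at h3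
  have h4 := Finset.card_pos.2 ⟨T, hT⟩
  omega

section three

/-- The defect: what is missing to a triangulation. -/
noncomputable def defect (V : Finset E) : ℕ := ∑ F ∈ FV.faces V 2, (F.card - 3)

theorem three_le {F : Finset E} (hV : ConvPos V) (hF : F ∈ FV.faces V 2) : 3 ≤ F.card := by
  obtain ⟨h1, h2⟩ := mem_faces.1 hF
  exact three_le_card_polygon (hV.mono h1.2.1) h2

/-- Edges and the defect. -/
theorem edges_defect (hV : ConvPos V) (h3 : FV.adim V = 3) :
    (FV.faces V 1).card + 6 + defect V = 3 * V.card ∧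
      V.card + (FV.faces V 2).card = (FV.faces V 1).card + 2 := by
  have h1 := sum_card_two_faces hV h3
  have h2 := euler_three hV h3
  have h4 : defect V + 3 * (FV.faces V 2).card = 2 * (FV.faces V 1).card := by
    rw [← h1, defect, mul_comm 3, ← smul_eq_mul, ← Finset.sum_const, ← Finset.sum_add_distrib]
    refine Finset.sum_congr rfl fun F hF => ?_
    have := three_le hV hF
    omega
  omega

/-- Five vertices and nine edges: there is an empty triangle. -/
theorem five (hV : ConvPos V) (h3 : FV.adim V = 3) (h5 : V.card = 5)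
    (h9 : (FV.faces V 1).card = 9) : (miss 3 V).Nonempty := by
  by_contra hno
  rw [Finset.not_nonempty_iff_eq_empty] at hno
  obtain ⟨e1, e2⟩ := edges_defect hV h3
  have hd0 : defect V = 0 := by omega
  have hf2 : (FV.faces V 2).card = 6 := by omega
  have hcard3 : ∀ F ∈ FV.faces V 2, F.card = 3 := by
    intro F hF
    have h1 := three_le hV hF
    have h2 : F.card - 3 ≤ defect V :=
      Finset.single_le_sum (f := fun F : Finset E => F.card - 3) (fun _ _ => Nat.zero_le _) hF
    omega
  -- the missing edge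
  have hsub : FV.faces V 1 ⊆ V.powersetCard 2 := by
    intro B hB
    exact Finset.mem_powersetCard.2 ⟨(mem_faces.1 hB).1.2.1, PGAux.card_pair hV hB⟩
  have hcomp : (V.powersetCard 2 \ FV.faces V 1).card = 1 := by
    rw [Finset.card_sdiff_of_subset hsub, Finset.card_powersetCard, h5, h9]
    rfl
  obtain ⟨N, hN⟩ := Finset.card_eq_one.1 hcomp
  have hN1 : N ∈ V.powersetCard 2 \ FV.faces V 1 := by
    rw [hN]
    exact Finset.mem_singleton_self N
  rw [Finset.mem_sdiff, Finset.mem_powersetCard] at hN1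
  obtain ⟨⟨hNV, hN2⟩, hNf⟩ := hN1
  have hall : ∀ B, B ⊆ V → B.card = 2 → B ≠ N → B ∈ FV.faces V 1 := by
    intro B h1 h2 h4
    by_contra hB
    have h6 : B ∈ V.powersetCard 2 \ FV.faces V 1 :=
      Finset.mem_sdiff.2 ⟨Finset.mem_powersetCard.2 ⟨h1, h2⟩, hB⟩
    rw [hN] at h6
    exact h4 (Finset.mem_singleton.1 h6)
  have hWc : (V \ N).card = 3 := by
    rw [Finset.card_sdiff_of_subset hNV, h5, hN2]
  have hWsub : ∀ B, B ⊆ V \ N → B.card = 2 → B ∈ FV.faces V 1 := by
    intro B h1 h2
    refine hall B (h1.trans Finset.sdiff_subset) h2 ?_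
    rintro rfl
    obtain ⟨x, hx⟩ := Finset.card_pos.1 (show 0 < B.card by omega)
    exact (Finset.mem_sdiff.1 (h1 hx)).2 hx
  have hWF : FaceSet V (V \ N) := by
    by_contra hW
    have h1 : V \ N ∈ miss 3 V := by
      refine mem_miss.2 ⟨Finset.sdiff_subset, hWc, fun x hx => ?_, hW⟩
      exact (mem_faces.1 (hWsub _ (Finset.erase_subset _ _) (by
        rw [Finset.card_erase_of_mem hx, hWc]))).1
    rw [hno] at h1
    exact Finset.notMem_empty _ h1
  have hW2 : V \ N ∈ FV.faces V 2 := by
    refine mem_faces.2 ⟨hWF, ?_⟩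
    obtain ⟨x, y, z, hxy, hxz, hyz, e⟩ := Finset.card_eq_three.1 hWc
    have hm : ∀ u ∈ V \ N, u ∈ V := fun u hu => (Finset.mem_sdiff.1 hu).1
    rw [e] at hm ⊢
    exact hV.adim_triple (hm x (by simp)) (hm y (by simp)) (hm z (by simp)) hxy hxz hyz
  have hNnot : ∀ F ∈ FV.faces V 2, ¬ N ⊆ F := by
    intro F hF hNF
    obtain ⟨h1, h2⟩ := mem_faces.1 hF
    refine hNf (mem_faces.2 ⟨h1.of_subset_simplex (by rw [hcard3 F hF, h2])
      (Finset.card_pos.1 (by omega)) hNF, ?_⟩)
    obtain ⟨x, y, hxy, rfl⟩ := Finset.card_eq_two.1 hN2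
    exact adim_pair hxy
  have hcov : (FV.faces V 2).erase (V \ N) ⊆ ((V \ N).powersetCard 2).biUnion
      fun B => ((FV.faces V 2).filter (fun F => B ⊆ F)).erase (V \ N) := by
    intro F hF
    obtain ⟨hFne, hFf⟩ := Finset.mem_erase.1 hF
    have hFV := (mem_faces.1 hFf).1.2.1
    have h1 : (F ∩ (V \ N)).card = 2 := by
      have h2 : F ∩ (V \ N) = F \ N := by
        ext x
        rw [Finset.mem_inter, Finset.mem_sdiff, Finset.mem_sdiff]
        exact ⟨fun h => ⟨h.1, h.2.2⟩, fun h => ⟨h.1, hFV h.1, h.2⟩⟩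
      have h4 := Finset.card_sdiff_add_card_inter F N
      have h6 : (F ∩ N).card < 2 := by
        rw [← hN2]
        refine Finset.card_lt_card (lt_of_le_of_ne Finset.inter_subset_right fun e => ?_)
        exact hNnot F hFf (Finset.inter_eq_right.1 e)
      have h7 : F \ N ≠ V \ N → (F \ N).card < 3 := by
        intro h8
        rw [← hWc]
        exact Finset.card_lt_card (lt_of_le_of_ne (Finset.sdiff_subset_sdiff hFV
          (Finset.Subset.refl _)) h8)
      have h8 := hcard3 F hFf
      rw [h2]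
      by_cases h9 : F \ N = V \ N
      · exfalso
        refine hFne (Finset.eq_of_subset_of_card_le (fun x hx => ?_) (by omega)).symm |>.elim
        rw [← h9] at hx
        exact (Finset.mem_sdiff.1 hx).1
      · have := h7 h9
        omega
    exact Finset.mem_biUnion.2 ⟨F ∩ (V \ N), Finset.mem_powersetCard.2
      ⟨Finset.inter_subset_right, h1⟩, Finset.mem_erase.2 ⟨hFne, Finset.mem_filter.2
      ⟨hFf, Finset.inter_subset_left⟩⟩⟩
  have hone : ∀ B ∈ (V \ N).powersetCard 2,
      (((FV.faces V 2).filter (fun F => B ⊆ F)).erase (V \ N)).card = 1 := by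
    intro B hB
    obtain ⟨h1, h2⟩ := Finset.mem_powersetCard.1 hB
    obtain ⟨h4, h6⟩ := mem_faces.1 (hWsub B h1 h2)
    have h7 := diamond h4 (FaceSet.self (h4.1.mono h4.2.1)) h4.2.1 (by rw [h3, h6])
    rw [h6] at h7
    rw [Finset.card_erase_of_mem (Finset.mem_filter.2 ⟨hW2, h1⟩)]
    have h8 : (FV.faces V 2).filter (fun F => B ⊆ F) =
        (FV.faces V (1 + 1)).filter (fun R => B ⊆ R ∧ R ⊆ V) := by
      refine Finset.filter_congr fun F hF => ?_
      exact ⟨fun h9 => ⟨h9, (mem_faces.1 hF).1.2.1⟩, fun h9 => h9.1⟩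
    rw [h8, h7]
  have h1 := (Finset.card_le_card hcov).trans Finset.card_biUnion_le
  rw [Finset.sum_congr rfl hone, Finset.sum_const, Finset.card_powersetCard, hWc,
    Finset.card_erase_of_mem hW2, hf2] at h1
  have h2 : (3 : ℕ).choose 2 = 3 := rfl
  rw [h2, smul_eq_mul, mul_one] at h1
  omega

/-- The exceptional values do not occur. -/
theorem no_exception [FiniteDimensional ℝ E] (hE : finrank ℝ E = 3) :
    ∀ (N : ℕ) (V : Finset E), V.card = N → ConvPos V → FV.adim V = 3 → defect V = 0 →
      (miss 3 V).card + 5 ≠ V.card := by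
  intro N
  induction N using Nat.strong_induction_on with
  | _ N ih =>
    intro V hN hV h4 hdef hk
    obtain ⟨e1, -⟩ := edges_defect hV h4
    rcases (miss 3 V).eq_empty_or_nonempty with h0 | ⟨T, hT⟩
    · rw [h0, Finset.card_empty] at hk
      obtain ⟨S, hS⟩ := five hV h4 (by omega) (by omega)
      rw [h0] at hS
      exact Finset.notMem_empty _ hS
    · obtain ⟨h1, h2, h3, h5⟩ := mem_miss.1 hT
      obtain ⟨h, c, C⟩ := exists_cutD (by omega) hE hV h4 h1 h2 h3 h5
      have hTne : T.Nonempty := Finset.card_pos.1 (by omega)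
      have a1 := card_cut C
      have a2 := card_edges_cut C le_rfl hE hV h4 hTne
      have a3 := card_miss_cut C le_rfl hE h4 hTne
      have a3' := card_miss_cut_ge C le_rfl hE h4 hT
      have a4 := card_upper_lt C
      have a5 := card_upper_lt C.neg
      have c1 := hV.mono (W := upper V h c) (Finset.filter_subset _ _)
      have c2 := hV.mono (W := upper V (-h) (-c)) (Finset.filter_subset _ _)
      have d1 := C.adim_upper hE hTne
      have d2 := C.neg.adim_upper hE hTne
      obtain ⟨f1, -⟩ := edges_defect c1 d1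
      obtain ⟨f2, -⟩ := edges_defect c2 d2
      have g1 := edges_ge le_rfl hE _ _ rfl c1 d1
      have g2 := edges_ge le_rfl hE _ _ rfl c2 d2
      have b1 := ih _ (by omega) (upper V h c) rfl c1 d1
      have b2 := ih _ (by omega) (upper V (-h) (-c)) rfl c2 d2
      have e3 : (3 : ℕ).choose 2 = 3 := rfl
      rw [e3] at a2
      have i1 : defect (upper V h c) = 0 := by omega
      have i2 : defect (upper V (-h) (-c)) = 0 := by omega
      have j1 := b1 i1
      have j2 := b2 i2
      omega

end three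

end Pool.Agent.ES96
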