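import Pool.Agent.Lib.ES96.Nec
import Pool.Agent.Lib.MP_e9c977_fv.Stack

/-!
# The necessary conditions for polytopes of dimension three: the final form
-/

set_option autoImplicit false

namespace Pool.Agent.ES96

open Module Pool.Agent.FV Pool.Agent.ES85
open scoped Classical

variable {E : Type} [NormedAddCommGroup E] [InnerProductSpace ℝ E] {V : Finset E}

/-- A simplex, all of whose facets are faces, is everything. -/
theorem simplex_eq {S : Finset E} (hV : ConvPos V) (hSV : S ⊆ V) (hS2 : 2 ≤ S.card)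
    (hS : ∀ x ∈ S, FaceSet V (S.erase x)) (h6 : FV.adim S = FV.adim V) : S = V := by
  obtain ⟨s0, hs0⟩ := Finset.card_pos.1 (show 0 < S.card by omega)
  have hspan : vectorSpan ℝ (S : Set E) = vectorSpan ℝ (V : Set E) := by
    have := finiteDimensional_vectorSpan_of_finite ℝ V.finite_toSet
    exact Submodule.eq_of_le_of_finrank_eq (vectorSpan_mono ℝ (Finset.coe_subset.2 hSV)) h6
  refine Finset.Subset.antisymm hSV fun v hv => ?_
  by_contra hvS
  have h7 : v -ᵥ s0 ∈ vectorSpan ℝ (S : Set E) := by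
    rw [hspan]
    exact vsub_mem_vectorSpan ℝ hv (hSV hs0)
  obtain ⟨β, hβ0, hβ⟩ := SKAux.exists_weights_of_mem h7
  rw [vsub_eq_sub] at hβ
  obtain ⟨w, hw⟩ : ∃ w : E → ℝ, w = fun y => β y + if y = s0 then 1 else 0 := ⟨_, rfl⟩
  have hw1 : ∑ y ∈ S, w y = 1 := by
    rw [hw, Finset.sum_add_distrib, hβ0, Finset.sum_ite_eq' S s0, if_pos hs0, zero_add]
  have hwv : ∑ y ∈ S, w y • y = v := by
    rw [hw]
    simp only [add_smul, ite_smul, one_smul, zero_smul]
    rw [Finset.sum_add_distrib, Finset.sum_ite_eq' S s0, if_pos hs0, ← hβ]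
    abel
  have hwl : ∀ l : E →ₗ[ℝ] ℝ, ∑ y ∈ S, w y * l y = l v := by
    intro l
    rw [← hwv, map_sum]
    simp only [map_smul, smul_eq_mul]
  have hwnn : ∀ x ∈ S, 0 ≤ w x := by
    intro x hx
    obtain ⟨-, -, l, c, hl, hl'⟩ := hS x hx
    have g1 : l x < c := lt_of_le_of_ne (hl x (hSV hx)) fun e =>
      (Finset.mem_erase.1 ((hl' x (hSV hx)).1 e)).1 rfl
    have g2 : ∑ y ∈ S, w y * (l y - c) = l v - c := by
      simp only [mul_sub, Finset.sum_sub_distrib, ← Finset.sum_mul, hw1, hwl, one_mul]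
    have g3 : ∑ y ∈ S, w y * (l y - c) = w x * (l x - c) := by
      refine Finset.sum_eq_single x (fun y hy hyx => ?_) fun h => absurd hx h
      rw [(hl' y (hSV hy)).2 (Finset.mem_erase.2 ⟨hyx, hy⟩), sub_self, mul_zero]
    have g4 := hl v hv
    by_contra hneg
    push Not at hneg
    have g5 : 0 < w x * (l x - c) := mul_pos_of_neg_of_neg hneg (by linarith)
    linarith
  obtain ⟨-, -, l, c, hl, hl'⟩ := hV v hv
  have g1 : l v = c := (hl' v hv).2 (Finset.mem_singleton_self v)
  have g2 : ∀ y ∈ S, l y < c := fun y hy => lt_of_le_of_ne (hl y (hSV hy)) fun e => hvS (by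
    have := Finset.mem_singleton.1 ((hl' y (hSV hy)).1 e)
    rwa [this] at hy)
  have g3 : ∑ y ∈ S, w y * (l y - c) = 0 := by
    simp only [mul_sub, Finset.sum_sub_distrib, ← Finset.sum_mul, hw1, hwl, one_mul, g1, sub_self]
  have g4 : ∀ y ∈ S, w y = 0 := by
    intro y hy
    have g5 := (Finset.sum_eq_zero_iff_of_nonpos fun y hy =>
      mul_nonpos_of_nonneg_of_nonpos (hwnn y hy) (sub_nonpos.2 (g2 y hy).le)).1 g3 y hy
    rcases mul_eq_zero.1 g5 with g6 | g6
    · exact g6
    · exact absurd g6 (sub_neg.2 (g2 y hy)).ne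
  rw [Finset.sum_eq_zero g4] at hw1
  exact zero_ne_one hw1

/-- Four points, all of whose triples are faces, are all the points. -/
theorem quad (hV : ConvPos V) (h3 : FV.adim V = 3) {S : Finset E} (hSV : S ⊆ V) (h4 : S.card = 4)
    (hS : ∀ x ∈ S, FaceSet V (S.erase x)) : S = V := by
  obtain ⟨s0, hs0⟩ := Finset.card_pos.1 (show 0 < S.card by omega)
  have hcard : (S.erase s0).card = 3 := by
    rw [Finset.card_erase_of_mem hs0]
    omega
  have had : FV.adim (S.erase s0) = 2 := by
    obtain ⟨x, y, z, hxy, hxz, hyz, e⟩ := Finset.card_eq_three.1 hcard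
    have hm : ∀ u ∈ S.erase s0, u ∈ V := fun u hu => hSV (Finset.mem_erase.1 hu).2
    rw [e] at hm ⊢
    exact hV.adim_triple (hm x (by simp)) (hm y (by simp)) (hm z (by simp)) hxy hxz hyz
  have h5 : FV.adim (S.erase s0) < FV.adim S :=
    (hS s0 hs0).adim_lt (Finset.erase_ssubset hs0) hSV
  have h6 : FV.adim S = FV.adim V := by
    have := adim_mono hSV
    omega
  exact simplex_eq hV hSV (by omega) hS h6

/-- Three pairwise adjacent vertices of a polygon are all its vertices. -/
theorem triangle_eq (hV : ConvPos V) (h2 : FV.adim V = 2) {S : Finset E} (hSV : S ⊆ V)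
    (h3 : S.card = 3) (hS : ∀ x ∈ S, FaceSet V (S.erase x)) : S = V := by
  refine simplex_eq hV hSV (by omega) hS ?_
  obtain ⟨x, y, z, hxy, hxz, hyz, e⟩ := Finset.card_eq_three.1 h3
  rw [e] at hSV ⊢
  rw [h2]
  exact hV.adim_triple (hSV (by simp)) (hSV (by simp)) (hSV (by simp)) hxy hxz hyz

/-- The number of empty `3`-simplices. -/
theorem card_three (hV : ConvPos V) (h3 : FV.adim V = 3) :
    (emptySimplices V 3).card = if V.card = 4 then 1 else 0 := by
  have hVne : V.Nonempty := FV.MOAux.nonempty_of_adim (k := 2) (by omega)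
  have hcV := adim_add_one_le_card hVne
  by_cases h4 : V.card = 4
  · rw [if_pos h4, Finset.card_eq_one]
    refine ⟨V, ?_⟩
    ext S
    rw [emptySimplices, Finset.mem_filter, Finset.mem_powersetCard, Finset.mem_singleton]
    constructor
    · rintro ⟨⟨h5, h6⟩, -⟩
      exact Finset.eq_of_subset_of_card_le h5 (by omega)
    · rintro rfl
      refine ⟨⟨Finset.Subset.refl _, h4⟩, fun T hT => ?_, fun h5 => h5.2.1.2 (Finset.Subset.refl _)⟩
      obtain ⟨h5, h6⟩ := Finset.mem_powersetCard.1 hT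
      refine isFace_iff_faceSet.2 ⟨?_, ?_⟩
      · exact (FaceSet.self hVne).of_subset_simplex (by omega) (Finset.card_pos.1 (by omega)) h5
      · rintro rfl
        omega
  · rw [if_neg h4, Finset.card_eq_zero, Finset.eq_empty_iff_forall_notMem]
    intro S hS
    obtain ⟨h5, h6, -⟩ := Finset.mem_filter.1 hS
    obtain ⟨h7, h8⟩ := Finset.mem_powersetCard.1 h5
    refine h4 ?_
    rw [← quad hV h3 h7 h8 fun x hx => ?_, h8]
    exact (isFace_iff_faceSet.1 (h6 _ (Finset.mem_powersetCard.2 ⟨Finset.erase_subset _ _, by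
      rw [Finset.card_erase_of_mem hx, h8]⟩))).1

/-- The arithmetic of the closed form. -/
theorem normal (k : ℕ) : ∀ (D t : ℕ), 1 ≤ t → 2 * D + 3 * k ≤ 3 * t → ¬ (D = 0 ∧ k + 1 = t) →
    ∃ t' D', 1 ≤ t' ∧ D' ≤ t' ∧ (t + 1).choose 2 + D = (t' + 1).choose 2 + D' ∧
      2 * D' + 3 * k ≤ 3 * t' ∧ ¬ (D' = 0 ∧ k + 1 = t') := by
  intro D
  induction D using Nat.strong_induction_on with
  | _ D ih =>
    intro t ht h1 h2
    by_cases h3 : D ≤ t
    · exact ⟨t, D, ht, h3, rfl, h1, h2⟩
    · obtain ⟨t', D', g1, g2, g3, g4, g5⟩ := ih (D - (t + 1)) (by omega) (t + 1) (by omega)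
        (by omega) (by omega)
      refine ⟨t', D', g1, g2, ?_, g4, g5⟩
      rw [← g3]
      have h4 : (t + 1 + 1).choose 2 = (t + 1).choose 2 + (t + 1) := by
        rw [Nat.choose_succ_succ' (t + 1) 1, Nat.choose_one_right]
        ring
      omega

/-- The necessary conditions. -/
theorem necessary [FiniteDimensional ℝ E] (hE : finrank ℝ E = 3) (hV : IsPolytope V) :
    (V.card = 4 ∧ (emptySimplices V 1).card = 0 ∧ (emptySimplices V 2).card = 0 ∧
        (emptySimplices V 3).card = 1) ∨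
      ((emptySimplices V 3).card = 0 ∧ ∃ t D, 1 ≤ t ∧ V.card = t + 4 ∧
        (emptySimplices V 1).card = (t + 1).choose 2 + D ∧
        2 * D + 3 * (emptySimplices V 2).card ≤ 3 * t ∧
        ¬ (D = 0 ∧ (emptySimplices V 2).card + 1 = t)) := by
  obtain ⟨hc, h4⟩ := convPos_of (by omega) hV
  rw [hE] at h4
  have hVne : V.Nonempty := FV.MOAux.nonempty_of_adim (k := 2) (by omega)
  have hcV := adim_add_one_le_card hVne
  have h1 := edges_ge le_rfl hE _ V rfl hc h4
  have h2 := card_edges_add (by omega) hc h4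
  have h3 := card_three hc h4
  obtain ⟨h5, -⟩ := edges_defect hc h4
  have h6 := no_exception hE _ V rfl hc h4
  have e1 : (emptySimplices V 2).card = (miss 3 V).card := by rw [miss_eq' le_rfl h4]
  obtain ⟨k, hk⟩ : ∃ k, k = (miss 3 V).card := ⟨_, rfl⟩
  rw [e1, ← hk]
  rw [← hk] at h1 h6
  obtain ⟨t, ht⟩ : ∃ t, V.card = t + 4 := ⟨V.card - 4, by omega⟩
  have e2 : (t + 4).choose 2 + 6 = (t + 1).choose 2 + 3 * (t + 4) := by
    have e : ∀ k : ℕ, 2 * k.choose 2 + k = k * k := by
      intro k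
      rw [Nat.choose_two_right]
      have h10 : 2 ∣ k * (k - 1) := (Nat.even_mul_pred_self k).two_dvd
      obtain ⟨j, hj⟩ := h10
      rw [hj, Nat.mul_div_cancel_left _ (by norm_num), ← hj]
      rcases k with _ | k
      · rfl
      · rw [Nat.add_sub_cancel]
        ring
    have e1 := e (t + 4)
    have e2 := e (t + 1)
    nlinarith
  rw [ht] at h1 h2 h3 h5 h6
  by_cases h0 : t = 0
  · subst h0
    left
    rw [if_pos rfl] at h3
    have e3 : (0 + 4).choose 2 = 6 := rfl
    exact ⟨by omega, by omega, by omega, h3⟩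
  · right
    rw [if_neg (by omega)] at h3
    exact ⟨h3, t, defect V, by omega, ht, by omega, by omega, fun h7 => h6 h7.1 (by omega)⟩

end Pool.Agent.ES96
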