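import Pool.Agent.Lib.ES96.Near

/-!
# Adding a point beyond one facet
-/

set_option autoImplicit false

namespace Pool.Agent.ES96

open Module Pool.Agent.FV Pool.Agent.ES85 Filter Topology
open scoped Classical

variable {E : Type} [NormedAddCommGroup E] [InnerProductSpace ℝ E] {V T : Finset E}

/-- The data of a point beyond the facet `T` only. -/
structure OpC (V T : Finset E) (z : E) : Prop where
  notMem : z ∉ V
  conv : ConvPos (insert z V)
  adim : FV.adim (insert z V) = 3
  defect : defect (insert z V) + (T.card - 3) = defect V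
  iff : ∀ S, S ⊆ V → ¬ T ⊆ S → (FaceSet (insert z V) S ↔ FaceSet V S)
  join : ∀ S, FaceSet V S → S ⊆ T → S ≠ T → FaceSet (insert z V) (insert z S)
  edge : ∀ x ∈ V, FaceSet (insert z V) {z, x} → x ∈ T
  not : ¬ FaceSet (insert z V) T

theorem exists_notMem {d : ℕ} (hT : T ∈ FV.faces V d) (hd : d < FV.adim V) : ∃ o ∈ V, o ∉ T := by
  obtain ⟨h1, h2⟩ := mem_faces.1 hT
  by_contra hcon
  push Not at hcon
  have : T = V := Finset.Subset.antisymm h1.2.1 hcon
  rw [this] at h2
  omega

/-- Every `2`-face containing another `2`-face equals it. -/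
theorem faces_two_eq {F : Finset E} (hT : T ∈ FV.faces V 2) (hF : F ∈ FV.faces V 2)
    (h : T ⊆ F) : T = F := by
  obtain ⟨h1, h2⟩ := mem_faces.1 hT
  obtain ⟨h3, h4⟩ := mem_faces.1 hF
  exact h1.eq_of_adim h h3.2.1 (by omega)

theorem exists_opC [FiniteDimensional ℝ E] (hE : finrank ℝ E = 3) (hV : ConvPos V)
    (h3 : FV.adim V = 3) (hT : T ∈ FV.faces V 2) : ∃ z, OpC V T z := by
  obtain ⟨hTF, hT2⟩ := mem_faces.1 hT
  obtain ⟨o, hoV, hoT⟩ := exists_notMem hT (by omega)
  have hTV := hTF.2.1
  have hTc := three_le hV hT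
  obtain ⟨m, hm⟩ := exists_centroid hTF.1
  obtain ⟨ε, hε⟩ := ((eventually_under hTV hm hTF.1 (m - o)).and self_mem_nhdsWithin).exists
  obtain ⟨hU, hε0⟩ := hε
  have hε0 : 0 < ε := hε0
  obtain ⟨z, hz⟩ : ∃ z, z = m + ε • (m - o) := ⟨_, rfl⟩
  rw [← hz] at hU
  have hB : Beyond V T z := hz ▸ beyond_of hε0 hTV hTF hm hoV hoT
  have hzV := hB.notMem
  have hkeep : ∀ S, FaceSet V S → ¬ T ⊆ S → FaceSet (insert z V) S := fun S hS hTS =>
    (hU S hS hTS).keep hS.1 hS.2.1
  have hjoin : ∀ S, FaceSet V S → ¬ T ⊆ S → FaceSet (insert z V) (insert z (S ∩ T)) :=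
    fun S hS hTS => join hTV hB (hU S hS hTS)
  have hsmall : ∀ S : Finset E, S.card < 3 → ¬ T ⊆ S := fun S hS hTS => by
    have := Finset.card_le_card hTS
    omega
  have hconv : ConvPos (insert z V) := by
    intro x hx
    rcases Finset.mem_insert.1 hx with rfl | hx
    · have h4 := hjoin {o} (hV o hoV) (hsmall _ (by simp))
      have h5 : ({o} : Finset E) ∩ T = ∅ := by
        rw [Finset.singleton_inter_of_notMem hoT]
      rwa [h5] at h4
    · exact hkeep {x} (hV x hx) (hsmall _ (by simp))
  have hadim : FV.adim (insert z V) = 3 := by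
    have h4 := adim_mono (Finset.subset_insert z V)
    have h5 := adim_le_finrank (insert z V)
    omega
  have hjoin' : ∀ S, FaceSet V S → S ⊆ T → S ≠ T → FaceSet (insert z V) (insert z S) := by
    intro S h4 h5 h6
    have h7 := hjoin S h4 fun h8 => h6 (Finset.Subset.antisymm h5 h8)
    rwa [Finset.inter_eq_left.2 h5] at h7
  have hjx : ∀ x ∈ T, FaceSet (insert z V) {z, x} := by
    intro x hx
    refine hjoin' {x} (hV x (hTV hx)) (Finset.singleton_subset_iff.2 hx) ?_
    rintro h4
    rw [← h4, Finset.card_singleton] at hTc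
    omega
  -- edges
  have hne : ∀ x ∈ T, z ≠ x := fun x hx e => hzV (e ▸ hTV hx)
  have hE1 : FV.faces V 1 ∪ T.image (fun x => ({z, x} : Finset E)) ⊆
      FV.faces (insert z V) 1 := by
    intro B hB
    rcases Finset.mem_union.1 hB with h4 | h4
    · obtain ⟨h5, h6⟩ := mem_faces.1 h4
      have h7 := PGAux.card_pair hV h4
      exact mem_faces.2 ⟨hkeep B h5 (hsmall _ (by omega)), h6⟩
    · obtain ⟨x, hx, rfl⟩ := Finset.mem_image.1 h4
      exact mem_faces.2 ⟨hjx x hx, adim_pair (hne x hx)⟩
  have hE2 : (FV.faces V 1 ∪ T.image (fun x => ({z, x} : Finset E))).card =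
      (FV.faces V 1).card + T.card := by
    rw [Finset.card_union_of_disjoint, Finset.card_image_of_injOn]
    · intro x hx y hy hxy
      have h4 : x ∈ ({z, y} : Finset E) := by
        rw [← (show ({z, x} : Finset E) = {z, y} from hxy)]
        simp
      rcases Finset.mem_insert.1 h4 with h5 | h5
      · exact absurd h5.symm (hne x hx)
      · exact Finset.mem_singleton.1 h5
    · rw [Finset.disjoint_left]
      intro B h4 h5
      obtain ⟨x, hx, rfl⟩ := Finset.mem_image.1 h5
      exact hzV ((mem_faces.1 h4).1.2.1 (by simp))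
  have hf1 := Finset.card_le_card hE1
  rw [hE2] at hf1
  -- defect
  have hF1 : (FV.faces V 2).erase T ⊆ FV.faces (insert z V) 2 := by
    intro F hF
    obtain ⟨h4, h5⟩ := Finset.mem_erase.1 hF
    obtain ⟨h6, h7⟩ := mem_faces.1 h5
    exact mem_faces.2 ⟨hkeep F h6 fun h8 => h4 (faces_two_eq hT h5 h8).symm, h7⟩
  have hdef : ES96.defect V ≤ ES96.defect (insert z V) + (T.card - 3) := by
    unfold ES96.defect
    rw [← Finset.sum_erase_add _ _ hT]
    exact Nat.add_le_add_right (Finset.sum_le_sum_of_subset hF1) _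
  obtain ⟨e1, -⟩ := edges_defect hV h3
  obtain ⟨e2, -⟩ := edges_defect hconv hadim
  rw [Finset.card_insert_of_notMem hzV] at e2
  have hEeq : FV.faces V 1 ∪ T.image (fun x => ({z, x} : Finset E)) =
      FV.faces (insert z V) 1 := Finset.eq_of_subset_of_card_le hE1 (by omega)
  refine ⟨z, hzV, hconv, hadim, by omega, fun S h4 h5 => ⟨fun h6 =>
    h6.of_subset (Finset.subset_insert _ _) h4, fun h6 => hkeep S h6 h5⟩, hjoin', ?_, ?_⟩
  · intro x hx h4
    have hzx : z ≠ x := fun e => hzV (e ▸ hx)
    have h5 : ({z, x} : Finset E) ∈ FV.faces (insert z V) 1 := mem_faces.2 ⟨h4, adim_pair hzx⟩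
    rw [← hEeq] at h5
    rcases Finset.mem_union.1 h5 with h6 | h6
    · exact absurd ((mem_faces.1 h6).1.2.1 (by simp)) hzV
    · obtain ⟨y, hy, hyx⟩ := Finset.mem_image.1 h6
      have h7 : x ∈ ({z, y} : Finset E) := by
        rw [hyx]
        simp
      rcases Finset.mem_insert.1 h7 with h8 | h8
      · exact absurd h8.symm hzx
      · rw [Finset.mem_singleton.1 h8]
        exact hy
  · rintro ⟨-, -, l, c, hl, hl'⟩
    have g1 : ∀ x ∈ T, l x = c := fun x hx => (hl' x (Finset.mem_insert_of_mem (hTV hx))).2 hx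
    have g2 := apply_centroid (l := l) (c := c) hTF.1 hm g1
    have g3 : l o < c := lt_of_le_of_ne (hl o (Finset.mem_insert_of_mem hoV)) fun e =>
      hoT ((hl' o (Finset.mem_insert_of_mem hoV)).1 e)
    have g4 := hl z (Finset.mem_insert_self _ _)
    rw [hz, map_add, map_smul, map_sub, g2, smul_eq_mul] at g4
    have := mul_pos hε0 (sub_pos.2 g3)
    linarith

/-- The empty triangles. -/
theorem OpC.mem_miss {z : E} (h : OpC V T z) (hV : ConvPos V) (hT : T ∈ FV.faces V 2)
    {S : Finset E} : S ∈ miss 3 (insert z V) ↔ S ∈ miss 3 V ∨ (S = T ∧ T.card = 3) := by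
  obtain ⟨hTF, hT2⟩ := mem_faces.1 hT
  have hTc := three_le hV hT
  have hsmall : ∀ S : Finset E, S.card < 3 → ¬ T ⊆ S := fun S hS hTS => by
    have := Finset.card_le_card hTS
    omega
  constructor
  · intro hS
    obtain ⟨h1, h2, h3, h4⟩ := ES85.mem_miss.1 hS
    by_cases hzS : z ∈ S
    · exfalso
      have h5 : (S.erase z).card = 2 := by rw [Finset.card_erase_of_mem hzS, h2]
      have hSV : S.erase z ⊆ V := fun x hx => by
        obtain ⟨h6, h7⟩ := Finset.mem_erase.1 hx
        exact (Finset.mem_insert.1 (h1 h7)).resolve_left h6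
      have h6 : FaceSet V (S.erase z) :=
        (h.iff _ hSV (hsmall _ (by omega))).1 (h3 z hzS)
      have h7 : S.erase z ⊆ T := by
        intro x hx
        obtain ⟨y, hy, hyx⟩ : ∃ y ∈ S.erase z, y ≠ x := by
          by_contra hcon
          push Not at hcon
          have := Finset.card_le_one.2 (fun a ha b hb => (hcon a ha).trans (hcon b hb).symm)
          omega
        have h8 : S.erase y = {z, x} := by
          symm
          refine Finset.eq_of_subset_of_card_le ?_ ?_
          · intro w hw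
            rcases Finset.mem_insert.1 hw with rfl | hw
            · exact Finset.mem_erase.2 ⟨fun e => h.notMem (e ▸ hSV hy), hzS⟩
            · rw [Finset.mem_singleton.1 hw]
              exact Finset.mem_erase.2 ⟨hyx.symm, Finset.mem_of_mem_erase hx⟩
          · rw [Finset.card_erase_of_mem (Finset.mem_of_mem_erase hy), h2,
              Finset.card_pair (fun e : z = x => h.notMem (by rw [e]; exact hSV hx))]
        have h9 := h3 y (Finset.mem_of_mem_erase hy)
        rw [h8] at h9
        exact h.edge x (hSV hx) h9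
      have h8 := h.join _ h6 h7 (by
        intro e
        rw [e] at h5
        omega)
      rw [Finset.insert_erase hzS] at h8
      exact h4 h8
    · have hSV : S ⊆ V := fun x hx =>
        (Finset.mem_insert.1 (h1 hx)).resolve_left fun e => hzS (e ▸ hx)
      by_cases hTS : T ⊆ S
      · have h5 := Finset.eq_of_subset_of_card_le hTS (by omega)
        exact Or.inr ⟨h5.symm, by rw [h5]; exact h2⟩
      · left
        refine ES85.mem_miss.2 ⟨hSV, h2, fun x hx => ?_, fun h5 => h4 ((h.iff S hSV hTS).2 h5)⟩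
        refine (h.iff _ ((Finset.erase_subset _ _).trans hSV) (hsmall _ ?_)).1 (h3 x hx)
        rw [Finset.card_erase_of_mem hx]
        omega
  · rintro (hS | ⟨rfl, hc⟩)
    · obtain ⟨h1, h2, h3, h4⟩ := ES85.mem_miss.1 hS
      have hTS : ¬ T ⊆ S := fun h5 => h4 (by
        have h6 := Finset.eq_of_subset_of_card_le h5 (by omega)
        rw [← h6]
        exact hTF)
      refine ES85.mem_miss.2 ⟨h1.trans (Finset.subset_insert _ _), h2, fun x hx => ?_,
        fun h5 => h4 ((h.iff S h1 hTS).1 h5)⟩
      refine (h.iff _ ((Finset.erase_subset _ _).trans h1) (hsmall _ ?_)).2 (h3 x hx)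
      rw [Finset.card_erase_of_mem hx]
      omega
    · refine ES85.mem_miss.2 ⟨hTF.2.1.trans (Finset.subset_insert _ _), hc, fun x hx => ?_, h.not⟩
      have h5 : (S.erase x).card = 2 := by rw [Finset.card_erase_of_mem hx, hc]
      refine (h.iff _ ((Finset.erase_subset _ _).trans hTF.2.1) (hsmall _ (by omega))).2 ?_
      exact hTF.of_subset_simplex (by omega) (Finset.card_pos.1 (by omega))
        (Finset.erase_subset _ _)

theorem OpC.miss_four {z : E} (h : OpC V T z) (hV : ConvPos V) (hT : T ∈ FV.faces V 2)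
    (hc : 4 ≤ T.card) : miss 3 (insert z V) = miss 3 V := by
  ext S
  rw [h.mem_miss hV hT]
  constructor
  · rintro (h1 | ⟨-, h1⟩)
    · exact h1
    · omega
  · exact Or.inl

theorem OpC.card_three {z : E} (h : OpC V T z) (hV : ConvPos V) (hT : T ∈ FV.faces V 2)
    (hc : T.card = 3) : (miss 3 (insert z V)).card = (miss 3 V).card + 1 := by
  have h1 : miss 3 (insert z V) = insert T (miss 3 V) := by
    ext S
    rw [h.mem_miss hV hT, Finset.mem_insert]
    constructor
    · rintro (h1 | ⟨h1, -⟩)
      · exact Or.inr h1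
      · exact Or.inl h1
    · rintro (h1 | h1)
      · exact Or.inr ⟨h1, hc⟩
      · exact Or.inl h1
  rw [h1, Finset.card_insert_of_notMem]
  intro h2
  exact (ES85.mem_miss.1 h2).2.2.2 (mem_faces.1 hT).1

end Pool.Agent.ES96
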