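import Pool.Agent.Lib.ES96.OpC

/-!
# Adding a point beyond two triangles
-/

set_option autoImplicit false

namespace Pool.Agent.ES96

open Module Pool.Agent.FV Pool.Agent.ES85 Filter Topology
open scoped Classical

variable {E : Type} [NormedAddCommGroup E] [InnerProductSpace ℝ E] {V T : Finset E}

/-- Two triangles with the common edge `x y`, whose further vertices are not adjacent. -/
structure EX (V : Finset E) (x y a b : E) : Prop where
  xy : x ≠ y
  xa : x ≠ a
  xb : x ≠ b
  ya : y ≠ a
  yb : y ≠ b
  ab : a ≠ b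
  Ta : ({x, y, a} : Finset E) ∈ FV.faces V 2
  Tb : ({x, y, b} : Finset E) ∈ FV.faces V 2
  not : ¬ FaceSet V {a, b}

theorem beyond_mid {P : Finset E} {m a b : E} {ε : ℝ} (hε : 0 < ε) (hTV : T ⊆ V)
    (hF : FaceSet V T) (hPT : P ⊆ T) (hP : P.Nonempty)
    (hm : (P.card : ℝ) • m = ∑ y ∈ P, y) (ha : a ∈ V) (hb : b ∈ V) (hbT : b ∉ T) :
    Beyond V T (m + ε • (m - (1 / 2 : ℝ) • (a + b))) := by
  obtain ⟨hne, -, l, c, hl, hl'⟩ := hF
  have h1 := apply_centroid (l := l) (c := c) hP hm fun x hx => (hl' x (hTV (hPT hx))).2 (hPT hx)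
  have h2 : l b < c := lt_of_le_of_ne (hl b hb) fun e => hbT ((hl' b hb).1 e)
  have h3 := hl a ha
  refine ⟨l, c, hl, hl', ?_⟩
  rw [map_add, map_smul, map_sub, h1, smul_eq_mul, map_smul, map_add, smul_eq_mul]
  have : 0 < ε * (c - 1 / 2 * (l a + l b)) := mul_pos hε (by linarith)
  linarith

theorem exists_opE [FiniteDimensional ℝ E] (hE : finrank ℝ E = 3) (hV : ConvPos V)
    (h3 : FV.adim V = 3) (hmiss : miss 3 V = ∅) {x y a b : E} (h : EX V x y a b) :
    ∃ w, w ∉ V ∧ ConvPos (insert w V) ∧ FV.adim (insert w V) = 3 ∧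
      defect (insert w V) = defect V ∧ miss 3 (insert w V) = ∅ ∧ EX (insert w V) w x a b := by
  have hTa := (mem_faces.1 h.Ta).1
  have hTb := (mem_faces.1 h.Tb).1
  have hxV : x ∈ V := hTa.2.1 (by simp)
  have hyV : y ∈ V := hTa.2.1 (by simp)
  have haV : a ∈ V := hTa.2.1 (by simp)
  have hbV : b ∈ V := hTb.2.1 (by simp)
  have hbTa : b ∉ ({x, y, a} : Finset E) := by
    simp only [Finset.mem_insert, Finset.mem_singleton, not_or]
    exact ⟨h.xb.symm, h.yb.symm, h.ab.symm⟩
  have haTb : a ∉ ({x, y, b} : Finset E) := by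
    simp only [Finset.mem_insert, Finset.mem_singleton, not_or]
    exact ⟨h.xa.symm, h.ya.symm, h.ab⟩
  have hPa : ({x, y} : Finset E) ⊆ {x, y, a} := by
    intro z hz
    simp only [Finset.mem_insert, Finset.mem_singleton] at hz ⊢
    tauto
  have hPb : ({x, y} : Finset E) ⊆ {x, y, b} := by
    intro z hz
    simp only [Finset.mem_insert, Finset.mem_singleton] at hz ⊢
    tauto
  have hPc : ({x, y} : Finset E).card = 2 := Finset.card_pair h.xy
  have hca : ({x, y, a} : Finset E).card = 3 := by
    rw [Finset.card_insert_of_notMem, Finset.card_pair h.ya]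
    simp only [Finset.mem_insert, Finset.mem_singleton, not_or]
    exact ⟨h.xy, h.xa⟩
  have hcb : ({x, y, b} : Finset E).card = 3 := by
    rw [Finset.card_insert_of_notMem, Finset.card_pair h.yb]
    simp only [Finset.mem_insert, Finset.mem_singleton, not_or]
    exact ⟨h.xy, h.xb⟩
  have hsa := (mem_faces.1 h.Ta).2
  have hsb := (mem_faces.1 h.Tb).2
  have hsuba : ∀ S : Finset E, S.Nonempty → S ⊆ {x, y, a} → FaceSet V S := fun S h1 h2 =>
    hTa.of_subset_simplex (by omega) h1 h2
  have hsubb : ∀ S : Finset E, S.Nonempty → S ⊆ {x, y, b} → FaceSet V S := fun S h1 h2 =>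
    hTb.of_subset_simplex (by omega) h1 h2
  have hPne : ({x, y} : Finset E).Nonempty := Finset.insert_nonempty _ _
  have hPV : ({x, y} : Finset E) ⊆ V := hPa.trans hTa.2.1
  have hPF : FaceSet V {x, y} := hsuba _ hPne hPa
  obtain ⟨m, hm⟩ := exists_centroid hPne
  obtain ⟨ε, hε⟩ := ((eventually_under hPV hm hPne (m - (1 / 2 : ℝ) • (a + b))).and
    self_mem_nhdsWithin).exists
  obtain ⟨hU, hε0⟩ := hε
  have hε0 : 0 < ε := hε0
  obtain ⟨w, hw⟩ : ∃ w, w = m + ε • (m - (1 / 2 : ℝ) • (a + b)) := ⟨_, rfl⟩
  rw [← hw] at hU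
  have hBa : Beyond V {x, y, a} w := hw ▸ beyond_mid hε0 hTa.2.1 hTa hPa hPne hm haV hbV hbTa
  have hBb : Beyond V {x, y, b} w := by
    have := beyond_mid hε0 hTb.2.1 hTb hPb hPne hm hbV haV haTb
    rw [add_comm b a] at this
    rw [hw]
    exact this
  have hwV := hBa.notMem
  have hkeep : ∀ S, FaceSet V S → ¬ {x, y} ⊆ S → FaceSet (insert w V) S := fun S hS hTS =>
    (hU S hS hTS).keep hS.1 hS.2.1
  have hja : ∀ S, FaceSet V S → ¬ {x, y} ⊆ S → S ⊆ {x, y, a} →
      FaceSet (insert w V) (insert w S) := by
    intro S hS hTS hSa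
    have h4 := join hTa.2.1 hBa (hU S hS hTS)
    rwa [Finset.inter_eq_left.2 hSa] at h4
  have hjb : ∀ S, FaceSet V S → ¬ {x, y} ⊆ S → S ⊆ {x, y, b} →
      FaceSet (insert w V) (insert w S) := by
    intro S hS hTS hSb
    have h4 := join hTb.2.1 hBb (hU S hS hTS)
    rwa [Finset.inter_eq_left.2 hSb] at h4
  have hsmall : ∀ S : Finset E, S.card < 2 → ¬ {x, y} ⊆ S := fun S hS hTS => by
    have := Finset.card_le_card hTS
    omega
  have hconv : ConvPos (insert w V) := by
    intro v hv
    rcases Finset.mem_insert.1 hv with rfl | hv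
    · have h4 := join hTa.2.1 hBa (hU {b} (hV b hbV) (hsmall _ (by simp)))
      rw [Finset.singleton_inter_of_notMem hbTa] at h4
      exact h4
    · exact hkeep {v} (hV v hv) (hsmall _ (by simp))
  have hadim : FV.adim (insert w V) = 3 := by
    have h4 := adim_mono (Finset.subset_insert w V)
    have h5 := adim_le_finrank (insert w V)
    omega
  obtain ⟨Q, hQ⟩ : ∃ Q : Finset E, Q = {x, y, a, b} := ⟨_, rfl⟩
  have hQV : Q ⊆ V := by
    rw [hQ]
    intro v hv
    simp only [Finset.mem_insert, Finset.mem_singleton] at hv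
    rcases hv with rfl | rfl | rfl | rfl <;> assumption
  have hQc : Q.card = 4 := by
    rw [hQ, Finset.card_insert_of_notMem, Finset.card_insert_of_notMem, Finset.card_pair h.ab]
    · simp only [Finset.mem_insert, Finset.mem_singleton, not_or]
      exact ⟨h.ya, h.yb⟩
    · simp only [Finset.mem_insert, Finset.mem_singleton, not_or]
      exact ⟨h.xy, h.xa, h.xb⟩
  have hne : ∀ v ∈ V, w ≠ v := fun v hv e => hwV (e ▸ hv)
  have hjx : ∀ v ∈ Q, FaceSet (insert w V) {w, v} := by
    intro v hv
    have hvV := hQV hv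
    rw [hQ] at hv
    by_cases hvb : v = b
    · exact hjb {v} (hV v hvV) (hsmall _ (by simp)) (by
        rw [hvb]
        simp)
    · refine hja {v} (hV v hvV) (hsmall _ (by simp)) ?_
      simp only [Finset.mem_insert, Finset.mem_singleton] at hv
      rw [Finset.singleton_subset_iff]
      simp only [Finset.mem_insert, Finset.mem_singleton]
      tauto
  have hPf : ({x, y} : Finset E) ∈ FV.faces V 1 := mem_faces.2 ⟨hPF, adim_pair h.xy⟩
  have hE1 : (FV.faces V 1).erase {x, y} ∪ Q.image (fun v => ({w, v} : Finset E)) ⊆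
      FV.faces (insert w V) 1 := by
    intro B hB
    rcases Finset.mem_union.1 hB with h4 | h4
    · obtain ⟨h7, h8⟩ := Finset.mem_erase.1 h4
      obtain ⟨h5, h6⟩ := mem_faces.1 h8
      refine mem_faces.2 ⟨hkeep B h5 fun h9 => h7 ?_, h6⟩
      exact (Finset.eq_of_subset_of_card_le h9 (by
        rw [PGAux.card_pair hV h8, hPc])).symm
    · obtain ⟨v, hv, rfl⟩ := Finset.mem_image.1 h4
      exact mem_faces.2 ⟨hjx v hv, adim_pair (hne v (hQV hv))⟩
  have hE2 : ((FV.faces V 1).erase {x, y} ∪ Q.image (fun v => ({w, v} : Finset E))).card =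
      (FV.faces V 1).card - 1 + 4 := by
    rw [Finset.card_union_of_disjoint, Finset.card_image_of_injOn, Finset.card_erase_of_mem hPf,
      hQc]
    · intro v hv v' hv' hvv
      have h4 : v ∈ ({w, v'} : Finset E) := by
        rw [← (show ({w, v} : Finset E) = {w, v'} from hvv)]
        simp
      rcases Finset.mem_insert.1 h4 with h5 | h5
      · exact absurd h5.symm (hne v (hQV hv))
      · exact Finset.mem_singleton.1 h5
    · rw [Finset.disjoint_left]
      intro B h4 h5
      obtain ⟨v, hv, rfl⟩ := Finset.mem_image.1 h5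
      exact hwV ((mem_faces.1 (Finset.mem_of_mem_erase h4)).1.2.1 (by simp))
  have hf0 := Finset.card_pos.2 ⟨_, hPf⟩
  have hf1 := Finset.card_le_card hE1
  rw [hE2] at hf1
  -- the two triangles
  have htwo : ∀ F ∈ FV.faces V 2, {x, y} ⊆ F → F = {x, y, a} ∨ F = {x, y, b} := by
    have h7 := diamond hPF (FaceSet.self (hPne.mono hPV)) hPV (by rw [h3, adim_pair h.xy])
    rw [adim_pair h.xy] at h7
    obtain ⟨F1, F2, h12, hF⟩ := Finset.card_eq_two.1 h7
    have ga : ({x, y, a} : Finset E) ∈ ({F1, F2} : Finset (Finset E)) := by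
      rw [← hF]
      exact Finset.mem_filter.2 ⟨h.Ta, hPa, hTa.2.1⟩
    have gb : ({x, y, b} : Finset E) ∈ ({F1, F2} : Finset (Finset E)) := by
      rw [← hF]
      exact Finset.mem_filter.2 ⟨h.Tb, hPb, hTb.2.1⟩
    have hab : ({x, y, a} : Finset E) ≠ {x, y, b} := fun e => haTb (by
      rw [← e]
      simp)
    intro F hF1 hF2
    have gF : F ∈ ({F1, F2} : Finset (Finset E)) := by
      rw [← hF]
      exact Finset.mem_filter.2 ⟨hF1, hF2, (mem_faces.1 hF1).1.2.1⟩
    simp only [Finset.mem_insert, Finset.mem_singleton] at ga gb gF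
    rcases ga with ga | ga <;> rcases gb with gb | gb <;> rcases gF with gF | gF <;>
      first
      | exact absurd (ga.trans gb.symm) hab
      | exact Or.inl (gF.trans ga.symm)
      | exact Or.inr (gF.trans gb.symm)
  have hdef : ES96.defect V ≤ ES96.defect (insert w V) := by
    unfold ES96.defect
    refine Finset.sum_le_sum_of_ne_zero fun F hF hF0 => ?_
    obtain ⟨h6, h7⟩ := mem_faces.1 hF
    refine mem_faces.2 ⟨hkeep F h6 fun h8 => hF0 ?_, h7⟩
    rcases htwo F hF h8 with rfl | rfl
    · omega
    · omega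
  obtain ⟨e1, -⟩ := edges_defect hV h3
  obtain ⟨e2, -⟩ := edges_defect hconv hadim
  rw [Finset.card_insert_of_notMem hwV] at e2
  have hEeq : (FV.faces V 1).erase {x, y} ∪ Q.image (fun v => ({w, v} : Finset E)) =
      FV.faces (insert w V) 1 := Finset.eq_of_subset_of_card_le hE1 (by omega)
  have hwedge : ∀ v ∈ V, FaceSet (insert w V) {w, v} → v ∈ Q := by
    intro v hv h4
    have h5 : ({w, v} : Finset E) ∈ FV.faces (insert w V) 1 :=
      mem_faces.2 ⟨h4, adim_pair (hne v hv)⟩
    rw [← hEeq] at h5
    rcases Finset.mem_union.1 h5 with h6 | h6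
    · exact absurd ((mem_faces.1 (Finset.mem_of_mem_erase h6)).1.2.1 (by simp)) hwV
    · obtain ⟨v', hv', hvv⟩ := Finset.mem_image.1 h6
      have h7 : v ∈ ({w, v'} : Finset E) := by
        rw [hvv]
        simp
      rcases Finset.mem_insert.1 h7 with h8 | h8
      · exact absurd h8.symm (hne v hv)
      · rw [Finset.mem_singleton.1 h8]
        exact hv'
  have hPnot : ¬ FaceSet (insert w V) {x, y} := by
    intro h4
    have h5 : ({x, y} : Finset E) ∈ FV.faces (insert w V) 1 := mem_faces.2 ⟨h4, adim_pair h.xy⟩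
    rw [← hEeq] at h5
    rcases Finset.mem_union.1 h5 with h6 | h6
    · exact (Finset.mem_erase.1 h6).1 rfl
    · obtain ⟨v', hv', hvv⟩ := Finset.mem_image.1 h6
      have h7 : w ∈ ({x, y} : Finset E) := by
        rw [← hvv]
        simp
      exact hwV (hPV h7)
  have habnot : ¬ FaceSet (insert w V) {a, b} := fun h4 => h.not (h4.of_subset
    (Finset.subset_insert _ _) (by
      intro v hv
      simp only [Finset.mem_insert, Finset.mem_singleton] at hv
      rcases hv with rfl | rfl <;> assumption))
  refine ⟨w, hwV, hconv, hadim, by omega, ?_, ?_⟩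
  · rw [Finset.eq_empty_iff_forall_notMem]
    intro S hS
    obtain ⟨h1, h2, h4, h5⟩ := ES85.mem_miss.1 hS
    by_cases hwS : w ∈ S
    · have h6 : (S.erase w).card = 2 := by rw [Finset.card_erase_of_mem hwS, h2]
      have hSV : S.erase w ⊆ V := fun v hv => by
        obtain ⟨h7, h8⟩ := Finset.mem_erase.1 hv
        exact (Finset.mem_insert.1 (h1 h8)).resolve_left h7
      have h7 : FaceSet V (S.erase w) := (h4 w hwS).of_subset (Finset.subset_insert _ _) hSV
      have h8 : S.erase w ⊆ Q := by
        intro v hv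
        obtain ⟨v', hv', hvv⟩ : ∃ v' ∈ S.erase w, v' ≠ v := by
          by_contra hcon
          push Not at hcon
          have := Finset.card_le_one.2 (fun a ha b hb => (hcon a ha).trans (hcon b hb).symm)
          omega
        have h8 : S.erase v' = {w, v} := by
          symm
          refine Finset.eq_of_subset_of_card_le ?_ ?_
          · intro u hu
            rcases Finset.mem_insert.1 hu with rfl | hu
            · exact Finset.mem_erase.2 ⟨hne v' (hSV hv'), hwS⟩
            · rw [Finset.mem_singleton.1 hu]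
              exact Finset.mem_erase.2 ⟨hvv.symm, Finset.mem_of_mem_erase hv⟩
          · rw [Finset.card_erase_of_mem (Finset.mem_of_mem_erase hv'), h2,
              Finset.card_pair (hne v (hSV hv))]
        have h9 := h4 v' (Finset.mem_of_mem_erase hv')
        rw [h8] at h9
        exact hwedge v (hSV hv) h9
      have h9 : ¬ {x, y} ⊆ S.erase w := by
        intro h10
        have h11 := Finset.eq_of_subset_of_card_le h10 (by rw [h6, hPc])
        have h12 := h4 w hwS
        rw [← h11] at h12
        exact hPnot h12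
      by_cases hSa : S.erase w ⊆ {x, y, a}
      · have h10 := hja _ h7 h9 hSa
        rw [Finset.insert_erase hwS] at h10
        exact h5 h10
      · by_cases hSb : S.erase w ⊆ {x, y, b}
        · have h10 := hjb _ h7 h9 hSb
          rw [Finset.insert_erase hwS] at h10
          exact h5 h10
        · obtain ⟨p, hp, hpa⟩ := Finset.not_subset.1 hSa
          obtain ⟨q, hq, hqb⟩ := Finset.not_subset.1 hSb
          have hpb : p = b := by
            have := h8 hp
            rw [hQ] at this
            simp only [Finset.mem_insert, Finset.mem_singleton] at this hpa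
            tauto
          have hqa : q = a := by
            have := h8 hq
            rw [hQ] at this
            simp only [Finset.mem_insert, Finset.mem_singleton] at this hqb
            tauto
          have h10 : ({a, b} : Finset E) = S.erase w := by
            refine Finset.eq_of_subset_of_card_le ?_ (by rw [h6, Finset.card_pair h.ab])
            intro u hu
            rcases Finset.mem_insert.1 hu with rfl | hu
            · rw [← hqa]
              exact hq
            · rw [Finset.mem_singleton.1 hu, ← hpb]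
              exact hp
          have h11 := h4 w hwS
          rw [← h10] at h11
          exact habnot h11
    · have hSV : S ⊆ V := fun v hv =>
        (Finset.mem_insert.1 (h1 hv)).resolve_left fun e => hwS (e ▸ hv)
      have h6 : FaceSet V S := by
        by_contra h7
        have h8 : S ∈ miss 3 V := ES85.mem_miss.2 ⟨hSV, h2, fun v hv =>
          (h4 v hv).of_subset (Finset.subset_insert _ _) ((Finset.erase_subset _ _).trans hSV), h7⟩
        rw [hmiss] at h8
        exact Finset.notMem_empty _ h8
      by_cases hPS : {x, y} ⊆ S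
      · obtain ⟨s, hs, hsP⟩ : ∃ s ∈ S, s ∉ ({x, y} : Finset E) := by
          by_contra hcon
          push Not at hcon
          have := Finset.card_le_card (show S ⊆ {x, y} from hcon)
          omega
        have h7 : ({x, y} : Finset E) = S.erase s := by
          refine Finset.eq_of_subset_of_card_le (fun v hv => Finset.mem_erase.2
            ⟨fun e => hsP (e ▸ hv), hPS hv⟩) ?_
          rw [Finset.card_erase_of_mem hs, h2, hPc]
        have h8 := h4 s hs
        rw [← h7] at h8
        exact hPnot h8
      · exact h5 (hkeep S h6 hPS)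
  · have hxa : ({x, a} : Finset E) ⊆ {x, y, a} := by
      intro v hv
      simp only [Finset.mem_insert, Finset.mem_singleton] at hv ⊢
      tauto
    have hxb : ({x, b} : Finset E) ⊆ {x, y, b} := by
      intro v hv
      simp only [Finset.mem_insert, Finset.mem_singleton] at hv ⊢
      tauto
    have hnya : ¬ {x, y} ⊆ ({x, a} : Finset E) := by
      intro h4
      have h5 : y ∈ ({x, a} : Finset E) := h4 (by simp)
      simp only [Finset.mem_insert, Finset.mem_singleton] at h5
      rcases h5 with h5 | h5
      · exact h.xy h5.symm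
      · exact h.ya h5
    have hnyb : ¬ {x, y} ⊆ ({x, b} : Finset E) := by
      intro h4
      have h5 : y ∈ ({x, b} : Finset E) := h4 (by simp)
      simp only [Finset.mem_insert, Finset.mem_singleton] at h5
      rcases h5 with h5 | h5
      · exact h.xy h5.symm
      · exact h.yb h5
    have hVs := Finset.subset_insert w V
    refine ⟨hne x hxV, hne a haV, hne b hbV, h.xa, h.xb, h.ab, ?_, ?_, habnot⟩
    · exact mem_faces.2 ⟨hja _ (hsuba _ (Finset.insert_nonempty _ _) hxa) hnya hxa,
        hconv.adim_triple (Finset.mem_insert_self _ _) (hVs hxV) (hVs haV) (hne x hxV)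
          (hne a haV) h.xa⟩
    · exact mem_faces.2 ⟨hjb _ (hsubb _ (Finset.insert_nonempty _ _) hxb) hnyb hxb,
        hconv.adim_triple (Finset.mem_insert_self _ _) (hVs hxV) (hVs hbV) (hne x hxV)
          (hne b hbV) h.xb⟩

end Pool.Agent.ES96
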