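import Pool.Agent.Lib.ES96.OpE

/-!
# Cutting off a simple vertex
-/

set_option autoImplicit false

namespace Pool.Agent.ES96

open Module Pool.Agent.FV Pool.Agent.ES85
open scoped Classical

variable {E : Type} [NormedAddCommGroup E] [InnerProductSpace ℝ E] {V : Finset E} {v : E}

/-- Pairs in an empty triangle. -/
theorem pair_of_miss {S : Finset E} (hS : S ∈ miss 3 V) {p q : E} (hp : p ∈ S) (hq : q ∈ S)
    (hpq : p ≠ q) : FaceSet V {p, q} := by
  obtain ⟨h1, h2, h3, h4⟩ := ES85.mem_miss.1 hS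
  obtain ⟨r, hr, hrn⟩ : ∃ r ∈ S, r ∉ ({p, q} : Finset E) := by
    by_contra hcon
    push Not at hcon
    have := Finset.card_le_card (show S ⊆ {p, q} from hcon)
    rw [Finset.card_pair hpq] at this
    omega
  have h5 : ({p, q} : Finset E) = S.erase r := by
    refine Finset.eq_of_subset_of_card_le (fun v hv => Finset.mem_erase.2
      ⟨fun e => hrn (e ▸ hv), ?_⟩) ?_
    · rcases Finset.mem_insert.1 hv with rfl | hv
      · exact hp
      · rw [Finset.mem_singleton.1 hv]
        exact hq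
    · rw [Finset.card_erase_of_mem hr, h2, Finset.card_pair hpq]
  rw [h5]
  exact h3 r hr

/-- Three points in convex position span a plane. -/
theorem two_le_adim {S : Finset E} (hV : ConvPos V) (hS : S ⊆ V) (hc : 3 ≤ S.card) :
    2 ≤ FV.adim S := by
  obtain ⟨S', hS', hSc⟩ := Finset.exists_subset_card_eq hc
  obtain ⟨x, y, z, hxy, hxz, hyz, e⟩ := Finset.card_eq_three.1 hSc
  have h1 := adim_mono hS'
  rw [e] at h1 hS'
  rw [hV.adim_triple (hS (hS' (by simp))) (hS (hS' (by simp))) (hS (hS' (by simp))) hxy hxz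
    hyz] at h1
  exact h1

/-- The `2`-faces at a vertex. -/
noncomputable def at2 (V : Finset E) (v : E) : Finset (Finset E) :=
  (FV.faces V 2).filter fun F => v ∈ F

/-- A `2`-face at `v` contains two neighbours of `v`. -/
theorem card_at2_inter (hV : ConvPos V) {F : Finset E} (hF : F ∈ at2 V v) :
    (F ∩ nbr V v).card = 2 := by
  obtain ⟨h1, h2⟩ := Finset.mem_filter.1 hF
  obtain ⟨h3, h4⟩ := mem_faces.1 h1
  rw [← nbr_face h3 h2]
  exact card_nbr_polygon (hV.mono h3.2.1) h4 h2

/-- The number of `2`-faces at a vertex. -/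
theorem card_at2 (hV : ConvPos V) (h3 : FV.adim V = 3) :
    (at2 V v).card = (nbr V v).card := by
  have h1 : ∑ F ∈ at2 V v, (F ∩ nbr V v).card = 2 * (at2 V v).card := by
    rw [Finset.sum_congr rfl fun F hF => card_at2_inter hV hF, Finset.sum_const, smul_eq_mul,
      mul_comm]
  have h2 : ∀ t ∈ nbr V v, ((at2 V v).filter fun F => t ∈ F).card = 2 := by
    intro t ht
    obtain ⟨g1, g2⟩ := mem_nbr.1 ht
    have hVne : V.Nonempty := g2.1.mono g2.2.1
    have h7 := diamond g2 (FaceSet.self hVne) g2.2.1 (by rw [h3, adim_pair g1.symm])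
    rw [adim_pair g1.symm] at h7
    rw [← h7]
    congr 1
    ext F
    rw [Finset.mem_filter, Finset.mem_filter, at2, Finset.mem_filter]
    constructor
    · rintro ⟨⟨g3, g4⟩, g5⟩
      refine ⟨g3, ?_, (mem_faces.1 g3).1.2.1⟩
      intro x hx
      simp only [Finset.mem_insert, Finset.mem_singleton] at hx
      rcases hx with rfl | rfl <;> assumption
    · rintro ⟨g3, g4, -⟩
      exact ⟨⟨g3, g4 (by simp)⟩, g4 (by simp)⟩
  have h4 : ∑ F ∈ at2 V v, (F ∩ nbr V v).card =
      ∑ t ∈ nbr V v, ((at2 V v).filter fun F => t ∈ F).card := by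
    have h5 := Finset.sum_card_bipartiteAbove_eq_sum_card_bipartiteBelow
      (s := at2 V v) (t := nbr V v) (fun F t => t ∈ F)
    simp only [Finset.bipartiteAbove, Finset.bipartiteBelow] at h5
    rw [← h5]
    refine Finset.sum_congr rfl fun F _ => ?_
    congr 1
    ext x
    rw [Finset.mem_inter, Finset.mem_filter]
    tauto
  rw [Finset.sum_congr rfl h2, Finset.sum_const, smul_eq_mul, h1] at h4
  omega

/-- No empty triangle contains a simple vertex. -/
theorem simple_notMem (hV : ConvPos V) (h3 : FV.adim V = 3) (hc : (nbr V v).card = 3)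
    {S : Finset E} (hS : S ∈ miss 3 V) : v ∉ S := by
  intro hvS
  obtain ⟨h1, h2, h4, h5⟩ := ES85.mem_miss.1 hS
  have hsub : S.erase v ⊆ nbr V v := by
    intro x hx
    obtain ⟨g1, g2⟩ := Finset.mem_erase.1 hx
    exact mem_nbr.2 ⟨g1, pair_of_miss hS hvS g2 (Ne.symm g1)⟩
  have hinj : Set.InjOn (fun F => F ∩ nbr V v) (at2 V v : Set (Finset E)) := by
    intro F hF F' hF' e
    have e' : F ∩ nbr V v = F' ∩ nbr V v := e
    obtain ⟨g1, g2⟩ := Finset.mem_filter.1 hF
    obtain ⟨g3, g4⟩ := Finset.mem_filter.1 hF'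
    have g5 := (mem_faces.1 g1)
    have g6 := (mem_faces.1 g3)
    have g7 := g5.1.inter g6.1 ⟨v, Finset.mem_inter.2 ⟨g2, g4⟩⟩
    have g8 : insert v (F ∩ nbr V v) ⊆ F ∩ F' := by
      intro x hx
      rcases Finset.mem_insert.1 hx with rfl | hx
      · exact Finset.mem_inter.2 ⟨g2, g4⟩
      · have hx' := hx
        rw [e'] at hx'
        exact Finset.mem_inter.2 ⟨(Finset.mem_inter.1 hx).1, (Finset.mem_inter.1 hx').1⟩
    have g9 : 3 ≤ (F ∩ F').card := by
      have := Finset.card_le_card g8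
      rw [Finset.card_insert_of_notMem, card_at2_inter hV hF] at this
      · exact this
      · intro h
        exact (mem_nbr.1 (Finset.mem_inter.1 h).2).1 rfl
    have g10 := two_le_adim hV g7.2.1 g9
    rw [← g7.eq_of_adim Finset.inter_subset_left g5.1.2.1 (by omega)]
    exact g7.eq_of_adim Finset.inter_subset_right g6.1.2.1 (by omega)
  have himg : (at2 V v).image (fun F => F ∩ nbr V v) = (nbr V v).powersetCard 2 := by
    refine Finset.eq_of_subset_of_card_le (fun B hB => ?_) ?_
    · obtain ⟨F, hF, rfl⟩ := Finset.mem_image.1 hB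
      exact Finset.mem_powersetCard.2 ⟨Finset.inter_subset_right, card_at2_inter hV hF⟩
    · rw [Finset.card_image_of_injOn hinj, card_at2 hV h3, hc, Finset.card_powersetCard, hc]
      exact le_rfl
  have h6 : S.erase v ∈ (nbr V v).powersetCard 2 := Finset.mem_powersetCard.2 ⟨hsub, by
    rw [Finset.card_erase_of_mem hvS, h2]⟩
  rw [← himg] at h6
  obtain ⟨F, hF, hFS⟩ := Finset.mem_image.1 h6
  have hFS' : F ∩ nbr V v = S.erase v := hFS
  obtain ⟨g1, g2⟩ := Finset.mem_filter.1 hF
  obtain ⟨g3, g4⟩ := mem_faces.1 g1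
  have h7 : S ⊆ F := by
    intro x hx
    by_cases hxv : x = v
    · rw [hxv]
      exact g2
    · have h8 : x ∈ S.erase v := Finset.mem_erase.2 ⟨hxv, hx⟩
      rw [← hFS'] at h8
      exact (Finset.mem_inter.1 h8).1
  have h8 := triangle_eq (hV.mono g3.2.1) g4 h7 h2 fun x hx =>
    (h4 x hx).of_subset g3.2.1 ((Finset.erase_subset _ _).trans h7)
  rw [h8] at h5
  exact h5 g3

/-- **Cutting off a simple vertex.** -/
theorem exists_opT [FiniteDimensional ℝ E] (hE : finrank ℝ E = 3) (hV : ConvPos V)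
    (h3 : FV.adim V = 3) (hvV : v ∈ V) (hTc : (nbr V v).card = 3) :
    ∃ W : Finset E, ConvPos W ∧ FV.adim W = 3 ∧ W.card = V.card + 2 ∧
      defect W = defect V + 3 ∧ (miss 3 W).card = (miss 3 V).card ∧
      (∃ T' ∈ FV.faces W 2, T'.card = 3) ∧ ∃ v' ∈ W, (nbr W v').card = 3 := by
  obtain ⟨T, hT⟩ : ∃ T, T = nbr V v := ⟨_, rfl⟩
  rw [← hT] at hTc
  have hTV : ∀ t ∈ T, t ∈ V ∧ t ≠ v ∧ FaceSet V {v, t} := by
    intro t ht
    rw [hT] at ht
    obtain ⟨h1, h2⟩ := mem_nbr.1 ht
    exact ⟨h2.2.1 (by simp), h1, h2⟩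
  have hcV : 4 ≤ V.card := by
    have := adim_add_one_le_card (S := V) ⟨v, hvV⟩
    omega
  -- the functional of the vertex
  obtain ⟨l, c, δ, hδ, hlv, hlw⟩ : ∃ (l : E →ₗ[ℝ] ℝ) (c δ : ℝ), 0 < δ ∧ l v = c ∧
      ∀ w ∈ V, w ≠ v → l w ≤ c - δ := by
    obtain ⟨-, -, l, c, h1, h2⟩ := hV v hvV
    have h4 : ∀ w ∈ V.erase v, 0 < c - l w := by
      intro w hw
      obtain ⟨h5, h6⟩ := Finset.mem_erase.1 hw
      have : l w < c := lt_of_le_of_ne (h1 w h6) fun e => h5 (Finset.mem_singleton.1
        ((h2 w h6).1 e))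
      linarith
    have h5 : (V.erase v).Nonempty := Finset.card_pos.1 (by
      rw [Finset.card_erase_of_mem hvV]
      omega)
    obtain ⟨w0, hw0, hmin⟩ := Finset.exists_min_image (V.erase v) (fun w => c - l w) h5
    refine ⟨l, c, c - l w0, h4 w0 hw0, (h2 v hvV).2 (Finset.mem_singleton_self v), ?_⟩
    intro w hw hwv
    have h6 : c - l w0 ≤ c - l w := hmin w (Finset.mem_erase.2 ⟨hwv, hw⟩)
    linarith
  obtain ⟨s, hs⟩ : ∃ s : E → ℝ, s = fun t => δ / (2 * (c - l t)) := ⟨_, rfl⟩
  have hsT : ∀ t ∈ T, 0 < s t ∧ s t < 1 ∧ s t * (c - l t) = δ / 2 := by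
    intro t ht
    obtain ⟨h1, h2, -⟩ := hTV t ht
    have h4 := hlw t h1 h2
    have h5 : 0 < c - l t := by linarith
    have e : s t = δ / (2 * (c - l t)) := by rw [hs]
    rw [e]
    refine ⟨by positivity, ?_, by field_simp⟩
    rw [div_lt_one (by linarith)]
    linarith
  obtain ⟨pr, hpr⟩ : ∃ pr : E → E, pr = fun t => v + s t • (t - v) := ⟨_, rfl⟩
  have hprl : ∀ (m : E →ₗ[ℝ] ℝ) (t : E), m (pr t) = m v + s t * (m t - m v) := by
    intro m t
    rw [hpr]
    show m (v + s t • (t - v)) = _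
    rw [map_add, map_smul, map_sub, smul_eq_mul]
  have hlpr : ∀ t ∈ T, l (pr t) = c - δ / 2 := by
    intro t ht
    have := (hsT t ht).2.2
    rw [hprl, hlv]
    linarith
  have hnew : ∀ t ∈ T, pr t ∉ V := by
    intro t ht h1
    have h2 := hlpr t ht
    by_cases h4 : pr t = v
    · rw [h4, hlv] at h2
      linarith
    · have := hlw _ h1 h4
      linarith
  have hinj : Set.InjOn pr (T : Set E) := by
    intro a ha b hb hab
    by_contra hne
    obtain ⟨-, hav, h4⟩ := hTV a ha
    obtain ⟨hbV, hbv, -⟩ := hTV b hb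
    obtain ⟨-, -, m, γ, h5, h6⟩ := h4
    have e1 : m v = γ := (h6 v hvV).2 (by simp)
    have e2 : m a = γ := (h6 a (hTV a ha).1).2 (by simp)
    have e3 : m b < γ := lt_of_le_of_ne (h5 b hbV) fun e => by
      have := (h6 b hbV).1 e
      simp only [Finset.mem_insert, Finset.mem_singleton] at this
      rcases this with h7 | h7
      · exact hbv h7
      · exact hne h7.symm
    have h7 := hprl m a
    have h8 := hprl m b
    rw [hab, h8, e1, e2] at h7
    have h9 := mul_pos (hsT b hb).1 (sub_pos.2 e3)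
    nlinarith
  obtain ⟨T', hT'⟩ : ∃ T', T' = T.image pr := ⟨_, rfl⟩
  have hT'c : T'.card = 3 := by rw [hT', Finset.card_image_of_injOn hinj, hTc]
  have hT'V : Disjoint (V.erase v) T' := by
    rw [Finset.disjoint_left]
    intro w hw h4
    rw [hT'] at h4
    obtain ⟨t, ht, rfl⟩ := Finset.mem_image.1 h4
    exact hnew t ht (Finset.mem_of_mem_erase hw)
  obtain ⟨W, hW⟩ : ∃ W, W = V.erase v ∪ T' := ⟨_, rfl⟩
  have hVW : V.erase v ⊆ W := hW ▸ Finset.subset_union_left
  have hTW : T' ⊆ W := hW ▸ Finset.subset_union_right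
  have hmemW : ∀ x, x ∈ W ↔ (x ≠ v ∧ x ∈ V) ∨ ∃ t ∈ T, pr t = x := by
    intro x
    rw [hW, Finset.mem_union, hT', Finset.mem_image, Finset.mem_erase]
  have hWc : W.card = V.card + 2 := by
    rw [hW, Finset.card_union_of_disjoint hT'V, hT'c, Finset.card_erase_of_mem hvV]
    omega
  -- the faces
  have hK : ∀ S, FaceSet V S → v ∉ S → FaceSet W S := by
    rintro S ⟨g1, g2, m, γ, g3, g4⟩ hvS
    have hmv : m v < γ := lt_of_le_of_ne (g3 v hvV) fun e => hvS ((g4 v hvV).1 e)
    have h5 : ∀ t ∈ T, m (pr t) < γ := by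
      intro t ht
      obtain ⟨h6, h7, -⟩ := hsT t ht
      have h8 := g3 t (hTV t ht).1
      rw [hprl]
      nlinarith
    refine ⟨g1, fun x hx => hVW (Finset.mem_erase.2 ⟨fun e => hvS (e ▸ hx), g2 hx⟩), m, γ,
      fun x hx => ?_, fun x hx => ?_⟩
    · rcases (hmemW x).1 hx with h6 | ⟨t, ht, rfl⟩
      · exact g3 x h6.2
      · exact (h5 t ht).le
    · rcases (hmemW x).1 hx with h6 | ⟨t, ht, rfl⟩
      · exact g4 x h6.2
      · exact ⟨fun h7 => absurd h7 (h5 t ht).ne, fun h7 => absurd (g2 h7) (hnew t ht)⟩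
  have hJ : ∀ S, FaceSet V S → v ∈ S → (S ∩ T).Nonempty →
      FaceSet W (S.erase v ∪ (S ∩ T).image pr) := by
    rintro S ⟨g1, g2, m, γ, g3, g4⟩ hvS hne
    have hmv : m v = γ := (g4 v hvV).2 hvS
    have h5 : ∀ t ∈ T, (m (pr t) = γ ↔ t ∈ S) ∧ m (pr t) ≤ γ := by
      intro t ht
      obtain ⟨h6, h7, -⟩ := hsT t ht
      have h8 := g3 t (hTV t ht).1
      rw [hprl, hmv, ← g4 t (hTV t ht).1]
      refine ⟨⟨fun h9 => ?_, fun h9 => by rw [h9]; ring⟩, ?_⟩
      · have h10 : s t * (m t - γ) = 0 := by linarith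
        rcases mul_eq_zero.1 h10 with h11 | h11
        · exact absurd h11 h6.ne'
        · linarith
      · have : s t * (m t - γ) ≤ 0 := mul_nonpos_of_nonneg_of_nonpos h6.le (by linarith)
        linarith
    refine ⟨?_, ?_, m, γ, fun x hx => ?_, fun x hx => ?_⟩
    · exact (hne.image pr).mono Finset.subset_union_right
    · intro x hx
      rcases Finset.mem_union.1 hx with h6 | h6
      · exact hVW (Finset.erase_subset_erase v g2 h6)
      · obtain ⟨t, ht, rfl⟩ := Finset.mem_image.1 h6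
        exact (hmemW _).2 (Or.inr ⟨t, (Finset.mem_inter.1 ht).2, rfl⟩)
    · rcases (hmemW x).1 hx with h6 | ⟨t, ht, rfl⟩
      · exact g3 x h6.2
      · exact (h5 t ht).2
    · rcases (hmemW x).1 hx with h6 | ⟨t, ht, rfl⟩
      · rw [g4 x h6.2, Finset.mem_union, Finset.mem_erase]
        refine ⟨fun h7 => Or.inl ⟨h6.1, h7⟩, fun h7 => h7.elim (fun h8 => h8.2) fun h8 => ?_⟩
        obtain ⟨t, ht, rfl⟩ := Finset.mem_image.1 h8
        exact absurd h6.2 (hnew t (Finset.mem_inter.1 ht).2)
      · rw [(h5 t ht).1, Finset.mem_union]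
        constructor
        · intro h8
          exact Or.inr (Finset.mem_image_of_mem _ (Finset.mem_inter.2 ⟨h8, ht⟩))
        · rintro (h8 | h8)
          · exact absurd (g2 (Finset.mem_of_mem_erase h8)) (hnew t ht)
          · obtain ⟨t', ht', htt⟩ := Finset.mem_image.1 h8
            obtain ⟨h9, h10⟩ := Finset.mem_inter.1 ht'
            rwa [← hinj h10 ht htt]
  have hTop : FaceSet W T' := by
    refine ⟨Finset.card_pos.1 (by omega), hTW, l, c - δ / 2, fun x hx => ?_, fun x hx => ?_⟩
    · rcases (hmemW x).1 hx with h6 | ⟨t, ht, rfl⟩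
      · have := hlw x h6.2 h6.1
        linarith
      · exact (hlpr t ht).le
    · rcases (hmemW x).1 hx with h6 | ⟨t, ht, rfl⟩
      · refine ⟨fun h7 => ?_, fun h7 => absurd h7 (Finset.disjoint_left.1 hT'V
          (Finset.mem_erase.2 h6))⟩
        have := hlw x h6.2 h6.1
        linarith
      · refine ⟨fun _ => ?_, fun _ => hlpr t ht⟩
        rw [hT']
        exact Finset.mem_image_of_mem _ ht
  have hvT : v ∉ T := fun h => (hTV v h).2.1 rfl
  have hedgeT : ∀ t ∈ T, FaceSet W {t, pr t} := by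
    intro t ht
    obtain ⟨h1, h2, h4⟩ := hTV t ht
    have h5 : ({v, t} : Finset E) ∩ T = {t} := by
      ext x
      simp only [Finset.mem_inter, Finset.mem_insert, Finset.mem_singleton]
      constructor
      · rintro ⟨rfl | rfl, h6⟩
        · exact absurd h6 hvT
        · rfl
      · rintro rfl
        exact ⟨Or.inr rfl, ht⟩
    have h6 := hJ {v, t} h4 (by simp) (by
      rw [h5]
      exact Finset.singleton_nonempty t)
    rw [h5, Finset.image_singleton, Finset.erase_insert (by
      simpa using Ne.symm h2)] at h6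
    exact h6
  have hcap : ∀ S : Finset E, S ⊆ V → (S.erase v ∪ (S ∩ T).image pr) ∩ T' =
      (S ∩ T).image pr := by
    intro S hS
    ext x
    rw [Finset.mem_inter, Finset.mem_union]
    constructor
    · rintro ⟨h7 | h7, h8⟩
      · exact absurd h8 (Finset.disjoint_left.1 hT'V (Finset.erase_subset_erase v hS h7))
      · exact h7
    · intro h7
      refine ⟨Or.inr h7, ?_⟩
      obtain ⟨t, ht, rfl⟩ := Finset.mem_image.1 h7
      rw [hT']
      exact Finset.mem_image_of_mem _ (Finset.mem_inter.1 ht).2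
  have hconv : ConvPos W := by
    intro x hx
    rcases (hmemW x).1 hx with h6 | ⟨t, ht, rfl⟩
    · exact hK {x} (hV x h6.2) (by simpa using Ne.symm h6.1)
    · have h7 : ({t, pr t} : Finset E) ∩ T' = {pr t} := by
        ext x
        simp only [Finset.mem_inter, Finset.mem_insert, Finset.mem_singleton]
        constructor
        · rintro ⟨rfl | rfl, h6⟩
          · exact absurd h6 (Finset.disjoint_left.1 hT'V (Finset.mem_erase.2
              ⟨(hTV x ht).2.1, (hTV x ht).1⟩))
          · rfl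
        · rintro rfl
          refine ⟨Or.inr rfl, ?_⟩
          rw [hT']
          exact Finset.mem_image_of_mem _ ht
      have h8 := (hedgeT t ht).inter hTop (by
        rw [h7]
        exact Finset.singleton_nonempty _)
      rwa [h7] at h8
  have hadim : FV.adim W = 3 := by
    obtain ⟨t, ht⟩ := Finset.card_pos.1 (show 0 < T.card by omega)
    have h4 : T' ⊂ W := lt_of_le_of_ne hTW fun e => by
      have h5 : t ∈ T' := by
        rw [e]
        exact hVW (Finset.mem_erase.2 ⟨(hTV t ht).2.1, (hTV t ht).1⟩)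
      exact Finset.disjoint_left.1 hT'V (Finset.mem_erase.2 ⟨(hTV t ht).2.1, (hTV t ht).1⟩) h5
    have h5 := hTop.adim_lt h4 (Finset.Subset.refl _)
    have h6 := two_le_adim hconv hTW (by omega)
    have h7 := adim_le_finrank W
    omega
  -- the faces at the vertex
  have hat := card_at2 (v := v) hV h3
  rw [← hT, hTc] at hat
  have hcapc : ∀ F ∈ at2 V v, (F ∩ T).card = 2 := by
    intro F hF
    rw [hT]
    exact card_at2_inter hV hF
  obtain ⟨q, hq⟩ : ∃ q : Finset E → Finset E, q = fun F => F.erase v ∪ (F ∩ T).image pr :=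
    ⟨_, rfl⟩
  have hqF : ∀ F ∈ at2 V v, FaceSet W (q F) := by
    intro F hF
    obtain ⟨g1, g2⟩ := Finset.mem_filter.1 hF
    rw [hq]
    exact hJ F (mem_faces.1 g1).1 g2 (Finset.card_pos.1 (by
      rw [hcapc F hF]
      omega))
  have hqV : ∀ F ∈ at2 V v, q F ∩ V = F.erase v := by
    intro F hF
    obtain ⟨g1, g2⟩ := Finset.mem_filter.1 hF
    have g3 := (mem_faces.1 g1).1.2.1
    rw [hq]
    ext x
    simp only [Finset.mem_inter, Finset.mem_union, Finset.mem_image]
    constructor
    · rintro ⟨h5 | ⟨t, ⟨h5, h6⟩, rfl⟩, h7⟩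
      · exact h5
      · exact absurd h7 (hnew t h6)
    · intro h5
      exact ⟨Or.inl h5, g3 (Finset.mem_of_mem_erase h5)⟩
  have hqinj : Set.InjOn q (at2 V v : Set (Finset E)) := by
    intro F hF F' hF' e
    have h5 := hqV F hF
    have h6 := hqV F' hF'
    rw [e, h6] at h5
    rw [← Finset.insert_erase (Finset.mem_filter.1 hF).2, ← h5,
      Finset.insert_erase (Finset.mem_filter.1 hF').2]
  have hqc : ∀ F ∈ at2 V v, (q F).card = F.card + 1 := by
    intro F hF
    obtain ⟨g1, g2⟩ := Finset.mem_filter.1 hF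
    have g3 := (mem_faces.1 g1).1.2.1
    have g4 := Finset.card_pos.2 ⟨v, g2⟩
    rw [hq]
    show (F.erase v ∪ (F ∩ T).image pr).card = _
    rw [Finset.card_union_of_disjoint, Finset.card_image_of_injOn, hcapc F hF,
      Finset.card_erase_of_mem g2]
    · omega
    · exact hinj.mono (Finset.coe_subset.2 Finset.inter_subset_right)
    · rw [Finset.disjoint_left]
      intro x hx hx2
      obtain ⟨t, ht, rfl⟩ := Finset.mem_image.1 hx2
      exact hnew t (Finset.mem_inter.1 ht).2 (g3 (Finset.mem_of_mem_erase hx))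
  have hq2 : ∀ F ∈ at2 V v, q F ∈ FV.faces W 2 := by
    intro F hF
    obtain ⟨g1, g2⟩ := Finset.mem_filter.1 hF
    obtain ⟨o, hoV, hoF⟩ := exists_notMem g1 (by omega)
    have hov : o ≠ v := fun e => hoF (e ▸ g2)
    have h5 := hqF F hF
    have h6 := three_le hV g1
    have h7 := hqc F hF
    have h8 := two_le_adim hconv h5.2.1 (by omega)
    have h9 : FV.adim (q F) < FV.adim W := by
      refine h5.adim_lt (lt_of_le_of_ne h5.2.1 fun e => ?_) (Finset.Subset.refl _)
      have h10 : o ∈ q F ∩ V := Finset.mem_inter.2 ⟨by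
        rw [e]
        exact hVW (Finset.mem_erase.2 ⟨hov, hoV⟩), hoV⟩
      rw [hqV F hF] at h10
      exact hoF (Finset.mem_of_mem_erase h10)
    exact mem_faces.2 ⟨h5, by omega⟩
  have hqnew : ∀ F ∈ at2 V v, ∃ t ∈ T, pr t ∈ q F := by
    intro F hF
    obtain ⟨t, ht⟩ := Finset.card_pos.1 (show 0 < (F ∩ T).card by
      rw [hcapc F hF]
      omega)
    refine ⟨t, (Finset.mem_inter.1 ht).2, ?_⟩
    rw [hq]
    exact Finset.mem_union_right _ (Finset.mem_image_of_mem _ ht)
  have hT'2 : T' ∈ FV.faces W 2 := by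
    refine mem_faces.2 ⟨hTop, ?_⟩
    obtain ⟨a, b, d, hab, had, hbd, e⟩ := Finset.card_eq_three.1 hT'c
    rw [e] at hTW ⊢
    exact hconv.adim_triple (hTW (by simp)) (hTW (by simp)) (hTW (by simp)) hab had hbd
  -- the edges
  obtain ⟨A0, hA0⟩ : ∃ A0 : Finset (Finset E), A0 = (FV.faces V 1).filter (fun B => v ∉ B) :=
    ⟨_, rfl⟩
  obtain ⟨A1, hA1⟩ : ∃ A1 : Finset (Finset E), A1 = T.image (fun t => ({t, pr t} : Finset E)) :=
    ⟨_, rfl⟩
  obtain ⟨A2, hA2⟩ : ∃ A2 : Finset (Finset E), A2 = (at2 V v).image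
    (fun F => (F ∩ T).image pr) := ⟨_, rfl⟩
  have hA0c : A0.card + 3 = (FV.faces V 1).card := by
    have h5 := Finset.card_filter_add_card_filter_not (s := FV.faces V 1) (fun B => v ∈ B)
    rw [← PGAux.card_nbr_eq hV, ← hT, hTc] at h5
    rw [hA0]
    omega
  have hA1c : A1.card = 3 := by
    rw [hA1, Finset.card_image_of_injOn, hTc]
    intro a ha b hb hab
    have h4 : a ∈ ({b, pr b} : Finset E) := by
      rw [← (show ({a, pr a} : Finset E) = {b, pr b} from hab)]
      simp
    rcases Finset.mem_insert.1 h4 with h5 | h5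
    · exact h5
    · exact absurd (hTV a ha).1 ((Finset.mem_singleton.1 h5) ▸ hnew b hb)
  have hcapinj : Set.InjOn (fun F => (F ∩ T).image pr) (at2 V v : Set (Finset E)) := by
    intro F hF F' hF' e
    have e' : (F ∩ T).image pr = (F' ∩ T).image pr := e
    have h5 : F ∩ T = F' ∩ T := by
      ext x
      constructor
      · intro hx
        have h6 : pr x ∈ (F' ∩ T).image pr := e' ▸ Finset.mem_image_of_mem _ hx
        obtain ⟨y, hy, hyx⟩ := Finset.mem_image.1 h6
        rwa [← hinj (Finset.mem_inter.1 hy).2 (Finset.mem_inter.1 hx).2 hyx]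
      · intro hx
        have h6 : pr x ∈ (F ∩ T).image pr := e' ▸ Finset.mem_image_of_mem _ hx
        obtain ⟨y, hy, hyx⟩ := Finset.mem_image.1 h6
        rwa [← hinj (Finset.mem_inter.1 hy).2 (Finset.mem_inter.1 hx).2 hyx]
    obtain ⟨g1, g2⟩ := Finset.mem_filter.1 hF
    obtain ⟨g3, g4⟩ := Finset.mem_filter.1 hF'
    have g5 := (mem_faces.1 g1)
    have g6 := (mem_faces.1 g3)
    have g7 := g5.1.inter g6.1 ⟨v, Finset.mem_inter.2 ⟨g2, g4⟩⟩
    have g8 : insert v (F ∩ T) ⊆ F ∩ F' := by
      intro x hx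
      rcases Finset.mem_insert.1 hx with rfl | hx
      · exact Finset.mem_inter.2 ⟨g2, g4⟩
      · have hx' := hx
        rw [h5] at hx'
        exact Finset.mem_inter.2 ⟨(Finset.mem_inter.1 hx).1, (Finset.mem_inter.1 hx').1⟩
    have g9 : 3 ≤ (F ∩ F').card := by
      have := Finset.card_le_card g8
      rw [Finset.card_insert_of_notMem, hcapc F hF] at this
      · exact this
      · intro h
        exact hvT (Finset.mem_inter.1 h).2
    have g10 := two_le_adim hV g7.2.1 g9
    rw [← g7.eq_of_adim Finset.inter_subset_left g5.1.2.1 (by omega)]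
    exact g7.eq_of_adim Finset.inter_subset_right g6.1.2.1 (by omega)
  have hA2c : A2.card = 3 := by rw [hA2, Finset.card_image_of_injOn hcapinj, hat]
  have hA2n : ∀ B ∈ A2, (∃ t ∈ T, pr t ∈ B) ∧ ∀ x ∈ B, x ∉ V := by
    intro B hB
    rw [hA2] at hB
    obtain ⟨F, hF, rfl⟩ := Finset.mem_image.1 hB
    obtain ⟨t, ht⟩ := Finset.card_pos.1 (show 0 < (F ∩ T).card by
      rw [hcapc F hF]
      omega)
    refine ⟨⟨t, (Finset.mem_inter.1 ht).2, Finset.mem_image_of_mem _ ht⟩, fun x hx => ?_⟩
    obtain ⟨t', ht', rfl⟩ := Finset.mem_image.1 hx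
    exact hnew t' (Finset.mem_inter.1 ht').2
  have hE1 : A0 ∪ (A1 ∪ A2) ⊆ FV.faces W 1 := by
    intro B hB
    rcases Finset.mem_union.1 hB with h4 | h4
    · rw [hA0] at h4
      obtain ⟨h5, h6⟩ := Finset.mem_filter.1 h4
      obtain ⟨h7, h8⟩ := mem_faces.1 h5
      exact mem_faces.2 ⟨hK B h7 h6, h8⟩
    · rcases Finset.mem_union.1 h4 with h4 | h4
      · rw [hA1] at h4
        obtain ⟨t, ht, rfl⟩ := Finset.mem_image.1 h4
        exact mem_faces.2 ⟨hedgeT t ht, adim_pair fun e => hnew t ht (e ▸ (hTV t ht).1)⟩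
      · rw [hA2] at h4
        obtain ⟨F, hF, rfl⟩ := Finset.mem_image.1 h4
        obtain ⟨g1, g2⟩ := Finset.mem_filter.1 hF
        have h5 : q F ∩ T' = (F ∩ T).image pr := by
          rw [hq]
          exact hcap F (mem_faces.1 g1).1.2.1
        have h6 : ((F ∩ T).image pr).card = 2 := by
          rw [Finset.card_image_of_injOn, hcapc F hF]
          exact hinj.mono (Finset.coe_subset.2 Finset.inter_subset_right)
        have h7 := (hqF F hF).inter hTop (by
          rw [h5]
          exact Finset.card_pos.1 (by omega))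
        rw [h5] at h7
        refine mem_faces.2 ⟨h7, ?_⟩
        obtain ⟨a, b, hab, e⟩ := Finset.card_eq_two.1 h6
        show FV.adim ((F ∩ T).image pr) = 1
        rw [e]
        exact adim_pair hab
  have hE2 : (A0 ∪ (A1 ∪ A2)).card = A0.card + 6 := by
    rw [Finset.card_union_of_disjoint, Finset.card_union_of_disjoint, hA1c, hA2c]
    · rw [Finset.disjoint_left]
      intro B h4 h5
      rw [hA1] at h4
      obtain ⟨t, ht, rfl⟩ := Finset.mem_image.1 h4
      exact (hA2n _ h5).2 t (by simp) (hTV t ht).1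
    · rw [Finset.disjoint_left]
      intro B h4 h5
      rw [hA0] at h4
      have h6 := (mem_faces.1 (Finset.mem_filter.1 h4).1).1.2.1
      rcases Finset.mem_union.1 h5 with h7 | h7
      · rw [hA1] at h7
        obtain ⟨t, ht, rfl⟩ := Finset.mem_image.1 h7
        exact hnew t ht (h6 (by simp))
      · obtain ⟨⟨t, ht, h8⟩, -⟩ := hA2n B h7
        exact hnew t ht (h6 h8)
  have hf1 := Finset.card_le_card hE1
  rw [hE2] at hf1
  -- the 2-faces
  obtain ⟨G0, hG0⟩ : ∃ G0 : Finset (Finset E), G0 = (FV.faces V 2).filter (fun F => v ∉ F) :=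
    ⟨_, rfl⟩
  have hG0c : G0.card + 3 = (FV.faces V 2).card := by
    have h5 := Finset.card_filter_add_card_filter_not (s := FV.faces V 2) (fun B => v ∈ B)
    have h6 : ((FV.faces V 2).filter (fun B => v ∈ B)).card = 3 := hat
    rw [h6] at h5
    rw [hG0]
    omega
  have hG1 : G0 ∪ ((at2 V v).image q ∪ {T'}) ⊆ FV.faces W 2 := by
    intro F hF
    rcases Finset.mem_union.1 hF with h4 | h4
    · rw [hG0] at h4
      obtain ⟨h5, h6⟩ := Finset.mem_filter.1 h4
      obtain ⟨h7, h8⟩ := mem_faces.1 h5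
      exact mem_faces.2 ⟨hK F h7 h6, h8⟩
    · rcases Finset.mem_union.1 h4 with h4 | h4
      · obtain ⟨F', hF', rfl⟩ := Finset.mem_image.1 h4
        exact hq2 F' hF'
      · rw [Finset.mem_singleton.1 h4]
        exact hT'2
  have hd2 : Disjoint ((at2 V v).image q) {T'} := by
    rw [Finset.disjoint_left]
    intro F h5 h6
    obtain ⟨F', hF', rfl⟩ := Finset.mem_image.1 h5
    have h7 := Finset.mem_singleton.1 h6
    have h8 := hqc F' hF'
    have h9 := three_le hV (Finset.mem_filter.1 hF').1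
    rw [h7, hT'c] at h8
    omega
  have hd1 : Disjoint G0 ((at2 V v).image q ∪ {T'}) := by
    rw [Finset.disjoint_left]
    intro F h5 h6
    rw [hG0] at h5
    have h7 := (mem_faces.1 (Finset.mem_filter.1 h5).1).1.2.1
    rcases Finset.mem_union.1 h6 with h8 | h8
    · obtain ⟨F', hF', rfl⟩ := Finset.mem_image.1 h8
      obtain ⟨t, ht, h9⟩ := hqnew F' hF'
      exact hnew t ht (h7 h9)
    · rw [Finset.mem_singleton.1 h8] at h7
      obtain ⟨t, ht⟩ := Finset.card_pos.1 (show 0 < T.card by omega)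
      refine hnew t ht (h7 ?_)
      rw [hT']
      exact Finset.mem_image_of_mem _ ht
  have hG2 : (G0 ∪ ((at2 V v).image q ∪ {T'})).card = G0.card + 4 := by
    rw [Finset.card_union_of_disjoint hd1, Finset.card_union_of_disjoint hd2,
      Finset.card_image_of_injOn hqinj, hat, Finset.card_singleton]
  have hdef : ES96.defect V + 3 ≤ ES96.defect W := by
    have h6 := Finset.sum_le_sum_of_subset (f := fun F : Finset E => F.card - 3) hG1
    rw [Finset.sum_union hd1, Finset.sum_union hd2, Finset.sum_image hqinj,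
      Finset.sum_singleton, hT'c] at h6
    have h7 : ∑ F ∈ at2 V v, ((q F).card - 3) = ∑ F ∈ at2 V v, (F.card - 3) + 3 := by
      have h7a : ∑ F ∈ at2 V v, ((q F).card - 3) = ∑ F ∈ at2 V v, ((F.card - 3) + 1) := by
        refine Finset.sum_congr rfl fun F hF => ?_
        rw [hqc F hF]
        have := three_le hV (Finset.mem_filter.1 hF).1
        omega
      rw [h7a, Finset.sum_add_distrib, ← Finset.card_eq_sum_ones, hat]
    have h8 : ∑ F ∈ FV.faces V 2, (F.card - 3) =
        ∑ F ∈ at2 V v, (F.card - 3) + ∑ F ∈ G0, (F.card - 3) := by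
      rw [hG0, at2]
      exact (Finset.sum_filter_add_sum_filter_not (FV.faces V 2) (fun F => v ∈ F) _).symm
    unfold ES96.defect
    rw [h8]
    rw [h7] at h6
    omega
  obtain ⟨e1, e1'⟩ := edges_defect hV h3
  obtain ⟨e2, e2'⟩ := edges_defect hconv hadim
  rw [hWc] at e2 e2'
  have hEeq : A0 ∪ (A1 ∪ A2) = FV.faces W 1 :=
    Finset.eq_of_subset_of_card_le hE1 (by omega)
  have hGeq : G0 ∪ ((at2 V v).image q ∪ {T'}) = FV.faces W 2 :=
    Finset.eq_of_subset_of_card_le hG1 (by omega)
  have hedge : ∀ w ∈ V, ∀ t ∈ T, FaceSet W {pr t, w} → w = t := by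
    intro w hw t ht h4
    have hne : pr t ≠ w := fun e => hnew t ht (e ▸ hw)
    have h5 : ({pr t, w} : Finset E) ∈ FV.faces W 1 := mem_faces.2 ⟨h4, adim_pair hne⟩
    rw [← hEeq] at h5
    rcases Finset.mem_union.1 h5 with h6 | h6
    · rw [hA0] at h6
      exact absurd ((mem_faces.1 (Finset.mem_filter.1 h6).1).1.2.1 (by simp)) (hnew t ht)
    · rcases Finset.mem_union.1 h6 with h6 | h6
      · rw [hA1] at h6
        obtain ⟨r, hr, hrt⟩ := Finset.mem_image.1 h6
        have h7 : pr t ∈ ({r, pr r} : Finset E) := by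
          rw [hrt]
          simp
        have h8 : w ∈ ({r, pr r} : Finset E) := by
          rw [hrt]
          simp
        simp only [Finset.mem_insert, Finset.mem_singleton] at h7 h8
        have h9 : pr t = pr r := h7.resolve_left fun e => hnew t ht (e ▸ (hTV r hr).1)
        have h10 : w = r := h8.resolve_right fun e => hnew r hr (e ▸ hw)
        rw [h10, hinj ht hr h9]
      · exact absurd hw ((hA2n _ h6).2 w (by simp))
  have hold : ∀ B : Finset E, B ⊆ V → B.card = 2 → FaceSet W B → FaceSet V B := by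
    intro B hB hBc h4
    have h5 : B ∈ FV.faces W 1 := by
      refine mem_faces.2 ⟨h4, ?_⟩
      obtain ⟨a, b, hab, e⟩ := Finset.card_eq_two.1 hBc
      rw [e]
      exact adim_pair hab
    rw [← hEeq] at h5
    rcases Finset.mem_union.1 h5 with h6 | h6
    · rw [hA0] at h6
      exact (mem_faces.1 (Finset.mem_filter.1 h6).1).1
    · exfalso
      rcases Finset.mem_union.1 h6 with h7 | h7
      · rw [hA1] at h7
        obtain ⟨r, hr, hrt⟩ := Finset.mem_image.1 h7
        refine hnew r hr (hB ?_)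
        rw [← hrt]
        simp
      · obtain ⟨⟨t, ht, h8⟩, -⟩ := hA2n B h7
        exact hnew t ht (hB h8)
  have hmiss : miss 3 W = miss 3 V := by
    ext S
    constructor
    · intro hS
      obtain ⟨h1, h2, h4, h5⟩ := ES85.mem_miss.1 hS
      have hSV : S ⊆ V.erase v := by
        by_contra hSV
        obtain ⟨u, huS, huV⟩ := Finset.not_subset.1 hSV
        obtain ⟨t, ht, rfl⟩ := ((hmemW u).1 (h1 huS)).resolve_left fun h =>
          huV (Finset.mem_erase.2 h)
        have huV' := hnew t ht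
        have h6 : ∀ w ∈ S, w ∉ V := by
          intro w hw hwV
          have hwu : pr t ≠ w := fun e => huV' (e ▸ hwV)
          have h7 := hedge w hwV t ht (pair_of_miss hS huS hw hwu)
          obtain ⟨r, hr, hrn⟩ : ∃ r ∈ S, r ∉ ({pr t, w} : Finset E) := by
            by_contra hcon
            push Not at hcon
            have := Finset.card_le_card (show S ⊆ {pr t, w} from hcon)
            rw [Finset.card_pair hwu] at this
            omega
          simp only [Finset.mem_insert, Finset.mem_singleton, not_or] at hrn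
          rcases (hmemW r).1 (h1 hr) with h8 | ⟨t', ht', rfl⟩
          · have h9 := hedge r h8.2 t ht (pair_of_miss hS huS hr (Ne.symm hrn.1))
            exact hrn.2 (h9.trans h7.symm)
          · have h9 := hedge w hwV t' ht' (pair_of_miss hS hr hw hrn.2)
            exact hrn.1 (by rw [← h9, ← h7])
        have h7 : S ⊆ T' := by
          intro w hw
          obtain ⟨t', ht', rfl⟩ := ((hmemW w).1 (h1 hw)).resolve_left fun h => h6 w hw h.2
          rw [hT']
          exact Finset.mem_image_of_mem _ ht'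
        have h8 := Finset.eq_of_subset_of_card_le h7 (by omega)
        rw [h8] at h5
        exact h5 hTop
      have hSV' : S ⊆ V := hSV.trans (Finset.erase_subset _ _)
      refine ES85.mem_miss.2 ⟨hSV', h2, fun x hx => hold _ ((Finset.erase_subset _ _).trans hSV')
        (by rw [Finset.card_erase_of_mem hx, h2]) (h4 x hx), fun h6 => h5 (hK S h6 fun h7 =>
          (Finset.mem_erase.1 (hSV h7)).1 rfl)⟩
    · intro hS
      have hvS := simple_notMem (v := v) hV h3 (by rw [← hT, hTc]) hS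
      obtain ⟨h1, h2, h4, h5⟩ := ES85.mem_miss.1 hS
      refine ES85.mem_miss.2 ⟨fun x hx => hVW (Finset.mem_erase.2 ⟨fun e => hvS (e ▸ hx), h1 hx⟩),
        h2, fun x hx => hK _ (h4 x hx) fun h => hvS (Finset.mem_of_mem_erase h), fun h6 => ?_⟩
      have h7 : S ∈ FV.faces W 2 := by
        refine mem_faces.2 ⟨h6, ?_⟩
        obtain ⟨a, b, d, hab, had, hbd, e⟩ := Finset.card_eq_three.1 h2
        rw [e] at h1 ⊢
        exact hV.adim_triple (h1 (by simp)) (h1 (by simp)) (h1 (by simp)) hab had hbd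
      rw [← hGeq] at h7
      rcases Finset.mem_union.1 h7 with h8 | h8
      · rw [hG0] at h8
        exact h5 (mem_faces.1 (Finset.mem_filter.1 h8).1).1
      · rcases Finset.mem_union.1 h8 with h9 | h9
        · obtain ⟨F, hF, rfl⟩ := Finset.mem_image.1 h9
          obtain ⟨t, ht, h10⟩ := hqnew F hF
          exact hnew t ht (h1 h10)
        · rw [Finset.mem_singleton.1 h9] at h1
          obtain ⟨t, ht⟩ := Finset.card_pos.1 (show 0 < T.card by omega)
          refine hnew t ht (h1 ?_)
          rw [hT']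
          exact Finset.mem_image_of_mem _ ht
  refine ⟨W, hconv, hadim, hWc, by omega, by rw [hmiss], ⟨T', hT'2, hT'c⟩, ?_⟩
  obtain ⟨t, ht⟩ := Finset.card_pos.1 (show 0 < T.card by omega)
  have htT' : pr t ∈ T' := by
    rw [hT']
    exact Finset.mem_image_of_mem _ ht
  refine ⟨pr t, hTW htT', ?_⟩
  have h5 := adim_le_card_nbr hconv (hTW htT')
  have h6 : nbr W (pr t) ⊆ insert t (T'.erase (pr t)) := by
    intro w hw
    obtain ⟨h7, h8⟩ := mem_nbr.1 hw
    rcases (hmemW w).1 (h8.2.1 (by simp)) with h9 | ⟨t', ht', rfl⟩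
    · rw [hedge w h9.2 t ht h8]
      exact Finset.mem_insert_self _ _
    · refine Finset.mem_insert_of_mem (Finset.mem_erase.2 ⟨h7, ?_⟩)
      rw [hT']
      exact Finset.mem_image_of_mem _ ht'
  have h7 := (Finset.card_le_card h6).trans (Finset.card_insert_le _ _)
  rw [Finset.card_erase_of_mem htT', hT'c] at h7
  omega

end Pool.Agent.ES96
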