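import Pool.Agent.Lib.ES96.Base

/-!
# The vectors of empty simplex numbers of the polytopes of dimension three
-/

set_option autoImplicit false

namespace Pool.Agent.ES96

open Module Pool.Agent.FV Pool.Agent.ES85
open scoped Classical

section states

variable {E : Type} [NormedAddCommGroup E] [InnerProductSpace ℝ E]

/-- Three-dimensional polytopes with `n` vertices, defect `D` and `k` empty triangles. -/
structure St (V : Finset E) (n D k : ℕ) : Prop where
  conv : ConvPos V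
  adim : FV.adim V = 3
  card : V.card = n
  defect : defect V = D
  miss : (miss 3 V).card = k

/-- There is a triangle. -/
def Tri (V : Finset E) : Prop := ∃ T ∈ FV.faces V 2, T.card = 3

theorem EX.tri {V : Finset E} {x y a b : E} (h : EX V x y a b) : Tri V := by
  refine ⟨_, h.Ta, ?_⟩
  rw [Finset.card_insert_of_notMem, Finset.card_pair h.ya]
  simp only [Finset.mem_insert, Finset.mem_singleton, not_or]
  exact ⟨h.xy, h.xa⟩

theorem St.stack [FiniteDimensional ℝ E] (hE : finrank ℝ E = 3) {V : Finset E} {n D k : ℕ}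
    (h : St V n D k) (hT : Tri V) : ∃ W : Finset E, St W (n + 1) D (k + 1) ∧ Tri W := by
  obtain ⟨T, hT, hTc⟩ := hT
  obtain ⟨z, hz⟩ := exists_opC hE h.conv h.adim hT
  have h1 := hz.defect
  have h2 := hz.card_three h.conv hT hTc
  have hTF := (mem_faces.1 hT).1
  have h4 := h.defect
  refine ⟨insert z V, ⟨hz.conv, hz.adim, ?_, by omega, by rw [h2, h.miss]⟩, ?_⟩
  · rw [Finset.card_insert_of_notMem hz.notMem, h.card]
  · obtain ⟨x, y, w, hxy, hxw, hyw, e⟩ := Finset.card_eq_three.1 hTc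
    have hx : x ∈ T := by
      rw [e]
      simp
    have hy : y ∈ T := by
      rw [e]
      simp
    have hsub : ({x, y} : Finset E) ⊆ T := by
      intro v hv
      simp only [Finset.mem_insert, Finset.mem_singleton] at hv
      rcases hv with rfl | rfl <;> assumption
    have h5 : FaceSet V {x, y} := hTF.of_subset_simplex (by rw [hTc, (mem_faces.1 hT).2])
      (Finset.insert_nonempty _ _) hsub
    have h6 : FaceSet (insert z V) {z, x, y} := hz.join _ h5 hsub fun e1 => by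
      have := congrArg Finset.card e1
      rw [Finset.card_pair hxy, hTc] at this
      omega
    have hxV := hTF.2.1 hx
    have hyV := hTF.2.1 hy
    have hzx : z ≠ x := fun e1 => hz.notMem (e1 ▸ hxV)
    have hzy : z ≠ y := fun e1 => hz.notMem (e1 ▸ hyV)
    refine ⟨{z, x, y}, mem_faces.2 ⟨h6, hz.conv.adim_triple (Finset.mem_insert_self _ _)
      (Finset.mem_insert_of_mem hxV) (Finset.mem_insert_of_mem hyV) hzx hzy hxy⟩, ?_⟩
    rw [Finset.card_insert_of_notMem, Finset.card_pair hxy]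
    simp only [Finset.mem_insert, Finset.mem_singleton, not_or]
    exact ⟨hzx, hzy⟩

/-- Cutting off a simple vertex. -/
theorem St.trunc [FiniteDimensional ℝ E] (hE : finrank ℝ E = 3) {V : Finset E} {n D k : ℕ}
    (h : St V n D k) (hs : ∃ v ∈ V, (nbr V v).card = 3) :
    ∃ W : Finset E, St W (n + 2) (D + 3) k ∧ Tri W ∧ ∃ v ∈ W, (nbr W v).card = 3 := by
  obtain ⟨v, hv, hc⟩ := hs
  obtain ⟨W, h1, h2, h3, h4, h5, h6, h7⟩ := exists_opT hE h.conv h.adim hv hc
  exact ⟨W, ⟨h1, h2, by rw [h3, h.card], by rw [h4, h.defect], by rw [h5, h.miss]⟩, h6, h7⟩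

theorem stackN [FiniteDimensional ℝ E] (hE : finrank ℝ E = 3) {n D k : ℕ}
    (h : ∃ V : Finset E, St V n D k ∧ Tri V) (s : ℕ) :
    ∃ V : Finset E, St V (n + s) D (k + s) ∧ Tri V := by
  induction s with
  | zero => exact h
  | succ s ih =>
    obtain ⟨V, h1, h2⟩ := ih
    exact h1.stack hE h2

theorem truncN [FiniteDimensional ℝ E] (hE : finrank ℝ E = 3) {n D k : ℕ}
    (h : ∃ V : Finset E, St V n D k ∧ Tri V ∧ ∃ v ∈ V, (nbr V v).card = 3) (r : ℕ) :
    ∃ V : Finset E, St V (n + 2 * r) (D + 3 * r) k ∧ Tri V ∧ ∃ v ∈ V, (nbr V v).card = 3 := by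
  induction r with
  | zero => exact h
  | succ r ih =>
    obtain ⟨V, h1, -, h3⟩ := ih
    exact h1.trunc hE h3

theorem splitN [FiniteDimensional ℝ E] (hE : finrank ℝ E = 3) {n D : ℕ}
    (h : ∃ (V : Finset E) (x y a b : E), St V n D 0 ∧ EX V x y a b) (j : ℕ) :
    ∃ (V : Finset E) (x y a b : E), St V (n + j) D 0 ∧ EX V x y a b := by
  induction j with
  | zero => exact h
  | succ j ih =>
    obtain ⟨V, x, y, a, b, h1, h2⟩ := ih
    obtain ⟨w, g1, g2, g3, g4, g5, g6⟩ := exists_opE hE h1.conv h1.adim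
      (Finset.card_eq_zero.1 h1.miss) h2
    refine ⟨insert w V, w, x, a, b, ⟨g2, g3, ?_, by rw [g4, h1.defect], by rw [g5]; rfl⟩, g6⟩
    rw [Finset.card_insert_of_notMem g1, h1.card]
    rfl

theorem octaOf [FiniteDimensional ℝ E] (hE : finrank ℝ E = 3) {R V : Finset E} {a : E}
    (h1 : R.card = 4) (h2 : Pyr R V a) :
    ∃ (V : Finset E) (x y a b : E), St V 6 0 0 ∧ EX V x y a b := by
  have h3 := h2.card
  have h4 := h2.defect
  obtain ⟨x, p, q, hx, hp, hq, h5⟩ := h2.ex (by omega)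
  obtain ⟨z, hz⟩ := exists_opC hE h2.conv h2.adim h2.base
  have h6 := hz.defect
  have h7 := hz.miss_four h2.conv h2.base (by omega)
  have hkeep : ∀ T : Finset E, T ∈ FV.faces V 2 → T.card ≤ 3 →
      T ∈ FV.faces (insert z V) 2 := by
    intro T hT hTc
    obtain ⟨g1, g2⟩ := mem_faces.1 hT
    refine mem_faces.2 ⟨(hz.iff T g1.2.1 fun g3 => ?_).2 g1, g2⟩
    have := Finset.card_le_card g3
    omega
  refine ⟨insert z V, a, x, p, q, ⟨hz.conv, hz.adim, ?_, by omega, by rw [h7, h2.miss]; rfl⟩,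
    ⟨h5.xy, h5.xa, h5.xb, h5.ya, h5.yb, h5.ab, hkeep _ h5.Ta Finset.card_le_three,
      hkeep _ h5.Tb Finset.card_le_three, fun g1 => h5.not (g1.of_subset
        (Finset.subset_insert _ _) ?_)⟩⟩
  · rw [Finset.card_insert_of_notMem hz.notMem]
    omega
  · have g2 := (mem_faces.1 h2.base).1.2.1
    intro v hv
    simp only [Finset.mem_insert, Finset.mem_singleton] at hv
    rcases hv with rfl | rfl
    · exact g2 hp
    · exact g2 hq

end states

/-- The space. -/
abbrev E3 := EuclideanSpace ℝ (Fin 3)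

theorem finrank_E3 : finrank ℝ E3 = 3 := by simp

theorem base (D : ℕ) : ∃ V : Finset E3, St V (D + 4) D 0 ∧ Tri V ∧
    ∃ v ∈ V, (nbr V v).card = 3 := by
  obtain ⟨R, V, a, h1, h2⟩ := exists_pyr (D + 3) (by omega)
  have h3 := h2.card
  have h4 := h2.defect
  exact ⟨V, ⟨h2.conv, h2.adim, by omega, by omega, by rw [h2.miss]; rfl⟩, h2.tri, h2.simple⟩

theorem baseE (D : ℕ) (hD : 1 ≤ D) :
    ∃ (V : Finset E3) (x y a b : E3), St V (D + 4) D 0 ∧ EX V x y a b := by
  obtain ⟨R, V, a, h1, h2⟩ := exists_pyr (D + 3) (by omega)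
  have h3 := h2.card
  have h4 := h2.defect
  obtain ⟨x, p, q, -, -, -, h5⟩ := h2.ex (by omega)
  exact ⟨V, a, x, p, q, ⟨h2.conv, h2.adim, by omega, by omega, by rw [h2.miss]; rfl⟩, h5⟩

theorem octa : ∃ (V : Finset E3) (x y a b : E3), St V 6 0 0 ∧ EX V x y a b := by
  obtain ⟨R, V, a, h1, h2⟩ := exists_pyr 4 (by omega)
  exact octaOf finrank_E3 h1 h2

/-- **Existence.** -/
theorem exists_state (t D k : ℕ) (h2 : 2 * D + 3 * k ≤ 3 * t)
    (h3 : ¬ (D = 0 ∧ k + 1 = t)) : ∃ V : Finset E3, St V (t + 4) D k := by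
  by_cases h4 : k + D ≤ t
  · by_cases hD : D = 0
    · subst hD
      by_cases hk : k = t
      · subst hk
        obtain ⟨V0, g0, g0', -⟩ := base 0
        obtain ⟨V, g1, -⟩ := stackN finrank_E3 ⟨V0, g0, g0'⟩ k
        rw [show 0 + 4 + k = k + 4 by omega, show 0 + k = k by omega] at g1
        exact ⟨V, g1⟩
      · obtain ⟨V, x, y, a, b, g1, g2⟩ := splitN finrank_E3 octa (t - k - 2)
        obtain ⟨W, g3, -⟩ := stackN finrank_E3 ⟨V, g1, g2.tri⟩ k
        have e1 : 6 + (t - k - 2) + k = t + 4 := by omega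
        rw [e1, Nat.zero_add] at g3
        exact ⟨W, g3⟩
    · obtain ⟨V, x, y, a, b, g1, g2⟩ := splitN finrank_E3 (baseE D (by omega)) (t - k - D)
      obtain ⟨W, g3, -⟩ := stackN finrank_E3 ⟨V, g1, g2.tri⟩ k
      have e1 : D + 4 + (t - k - D) + k = t + 4 := by omega
      rw [e1, Nat.zero_add] at g3
      exact ⟨W, g3⟩
  · obtain ⟨V, g1, g2, -⟩ := truncN finrank_E3 (base (D - 3 * (k + D - t))) (k + D - t)
    obtain ⟨W, g3, -⟩ := stackN finrank_E3 ⟨V, g1, g2⟩ k
    have e1 : D - 3 * (k + D - t) + 4 + 2 * (k + D - t) + k = t + 4 := by omega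
    have e2 : D - 3 * (k + D - t) + 3 * (k + D - t) = D := by omega
    rw [e1, e2, Nat.zero_add] at g3
    exact ⟨W, g3⟩

/-- The vector of a state. -/
theorem St.vector {V : Finset E3} {t D k : ℕ} (h : St V (t + 4) D k) : IsPolytope V ∧
    (emptySimplices V 1).card = (t + 1).choose 2 + D ∧ (emptySimplices V 2).card = k ∧
      (emptySimplices V 3).card = if t = 0 then 1 else 0 := by
  have h1 := card_edges_add (by omega) h.conv h.adim
  obtain ⟨h2, -⟩ := edges_defect h.conv h.adim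
  have h3 := card_three h.conv h.adim
  have e2 : (t + 4).choose 2 + 6 = (t + 1).choose 2 + 3 * (t + 4) := by
    have e : ∀ k : ℕ, 2 * k.choose 2 + k = k * k := by
      intro k
      rw [Nat.choose_two_right]
      have h10 : 2 ∣ k * (k - 1) := (Nat.even_mul_pred_self k).two_dvd
      obtain ⟨j, hj⟩ := h10
      rw [hj, Nat.mul_div_cancel_left _ (by norm_num), ← hj]
      rcases k with _ | k
      · rfl
      · rw [Nat.add_sub_cancel]
        ring
    have e1 := e (t + 4)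
    have e2 := e (t + 1)
    nlinarith
  rw [h.card] at h1 h2 h3
  rw [h.defect] at h2
  refine ⟨isPolytope_of (by omega) finrank_E3 h.conv h.adim, by omega, ?_, ?_⟩
  · have h5 := miss_eq' le_rfl h.adim
    rw [show (3 : ℕ) - 1 = 2 from rfl] at h5
    rw [← h5, h.miss]
  · rw [h3]
    by_cases ht : t = 0
    · rw [if_pos ht, if_pos (by omega)]
    · rw [if_neg ht, if_neg (by omega)]

/-- **The numbers of vertices and the vectors of the polytopes of dimension three.** -/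
theorem three_n (n a k c : ℕ) : (∃ V : Finset E3, IsPolytope V ∧ V.card = n ∧
      (emptySimplices V 1).card = a ∧ (emptySimplices V 2).card = k ∧
      (emptySimplices V 3).card = c) ↔
    (n = 4 ∧ a = 0 ∧ k = 0 ∧ c = 1) ∨ (c = 0 ∧ ∃ t D, 1 ≤ t ∧ n = t + 4 ∧
      a = (t + 1).choose 2 + D ∧ 2 * D + 3 * k ≤ 3 * t ∧ ¬ (D = 0 ∧ k + 1 = t)) := by
  constructor
  · rintro ⟨V, hV, rfl, rfl, rfl, rfl⟩
    exact necessary finrank_E3 hV
  · rintro (⟨rfl, rfl, rfl, rfl⟩ | ⟨rfl, t, D, h1, rfl, rfl, h4, h5⟩)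
    · obtain ⟨V, hV⟩ := exists_state 0 0 0 (by omega) (by omega)
      obtain ⟨g1, g2, g3, g4⟩ := hV.vector
      exact ⟨V, g1, hV.card, g2, g3, g4⟩
    · obtain ⟨V, hV⟩ := exists_state t D k h4 h5
      obtain ⟨g1, g2, g3, g4⟩ := hV.vector
      rw [if_neg (by omega)] at g4
      exact ⟨V, g1, hV.card, g2, g3, g4⟩

/-- **The vectors of the polytopes of dimension three.** -/
theorem three (a k c : ℕ) : (∃ V : Finset E3, IsPolytope V ∧ (emptySimplices V 1).card = a ∧
      (emptySimplices V 2).card = k ∧ (emptySimplices V 3).card = c) ↔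
    (a = 0 ∧ k = 0 ∧ c = 1) ∨ (c = 0 ∧ ∃ t D, 1 ≤ t ∧ D ≤ t ∧ a = (t + 1).choose 2 + D ∧
      2 * D + 3 * k ≤ 3 * t ∧ ¬ (D = 0 ∧ k + 1 = t)) := by
  constructor
  · rintro ⟨V, hV, g1, g2, g3⟩
    rcases (three_n _ a k c).1 ⟨V, hV, rfl, g1, g2, g3⟩ with ⟨-, h1, h2, h3⟩ |
      ⟨h1, t, D, h2, -, h4, h5, h6⟩
    · exact Or.inl ⟨h1, h2, h3⟩
    · obtain ⟨t', D', g1, g2, g3, g4, g5⟩ := normal k D t h2 h5 h6
      exact Or.inr ⟨h1, t', D', g1, g2, h4.trans g3, g4, g5⟩
  · rintro (⟨rfl, rfl, rfl⟩ | ⟨rfl, t, D, h1, -, h3, h4, h5⟩)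
    · obtain ⟨V, hV, -, h1⟩ := (three_n 4 0 0 1).2 (Or.inl ⟨rfl, rfl, rfl, rfl⟩)
      exact ⟨V, hV, h1⟩
    · obtain ⟨V, hV, -, h6⟩ := (three_n (t + 4) a k 0).2
        (Or.inr ⟨rfl, t, D, h1, rfl, h3, h4, h5⟩)
      exact ⟨V, hV, h6⟩

end Pool.Agent.ES96
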